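import Pool.Agent.Helper732.HopfZG.Levels4

set_option autoImplicit false

namespace Pool.Agent.Helper732.HopfZG

open Function Equiv
open scoped Pointwise

/-- An even permutation moving the small set `A` off the small set `P`. -/
lemma exists_good {k : ℕ} (hk : 15 ≤ k) (A P : Finset (Fin k)) (hA : A.card ≤ 8) (hP : P.card ≤ 5) :
    ∃ g : alternatingGroup (Fin k), ∀ y ∈ A, g.1 y ∉ P := by
  obtain ⟨A', hAA', hA'⟩ := Finset.exists_superset_card_eq hA
    (by rw [Fintype.card_fin]; omega : 8 ≤ Fintype.card (Fin k))
  have h1 : 8 ≤ Pᶜ.card := by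
    rw [Finset.card_compl, Fintype.card_fin]; omega
  obtain ⟨B', hB', hB'c⟩ := Finset.exists_subset_card_eq h1
  have htr : MulAction.IsPretransitive (alternatingGroup (Fin k)) (Set.powersetCard (Fin k) 8) :=
    Set.powersetCard.isPretransitive_alternatingGroup (by rw [Nat.card_fin]; omega)
  obtain ⟨g, hg⟩ := htr.exists_smul_eq ⟨A', hA'⟩ ⟨B', hB'c⟩
  refine ⟨g, ?_⟩
  intro y hy
  have h2 : g • A' = B' := by
    exact congrArg Subtype.val hg
  have h3 : g • y ∈ B' := by
    rw [← h2]
    exact Finset.smul_mem_smul_finset (hAA' hy)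
  have h4 := hB' h3
  rw [Finset.mem_compl] at h4
  exact h4

/-- The abstract configuration used for rigidity. -/
lemma fix_aux {α : Type} {c r z : Perm α} {y0 : α} (h1 : ∀ y, c y ≠ y → ∃ i : ℕ, y = (c ^ i) y0)
    (h2 : ∀ y, c y ≠ y → r y = y → y = y0) (hc0 : c y0 ≠ y0) (hr0 : r y0 = y0)
    (hzc : z * c = c * z) (hzr : z * r = r * z) : ∀ y, c y ≠ y → z y = y := by
  have hzc' : ∀ y, z (c y) = c (z y) := fun y => congrArg (fun p : Perm α => p y) hzc
  have hzr' : ∀ y, z (r y) = r (z y) := fun y => congrArg (fun p : Perm α => p y) hzr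
  have h0 : z y0 = y0 := by
    apply h2
    · rw [← hzc']
      intro h
      exact hc0 (z.injective h)
    · rw [← hzr', hr0]
  intro y hy
  obtain ⟨i, rfl⟩ := h1 y hy
  clear hy
  induction i with
  | zero => exact h0
  | succ i ih =>
    rw [pow_succ', Perm.mul_apply, hzc', ih]

lemma comm_of_disj {α : Type} {b c : Perm α} (h : ∀ y, b y = y ∨ c y = y) : b * c = c * b :=
  (show Perm.Disjoint b c from h).commute.eq

theorem rigid_alt {k : ℕ} (hk : 15 ≤ k) (c r : alternatingGroup (Fin k)) (y0 : Fin k)
    (h1 : ∀ y, c.1 y ≠ y → ∃ i : ℕ, y = (c.1 ^ i) y0)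
    (h2 : ∀ y, c.1 y ≠ y → r.1 y = y → y = y0) (hc0 : c.1 y0 ≠ y0) (hr0 : r.1 y0 = y0)
    (hrc : ∀ y, c.1 y = y → r.1 y = y) (hrc' : r * c = c⁻¹ * r)
    (hcard : c.1.support.card ≤ 5) : Rigid c := by
  have hsimple : IsSimpleGroup (alternatingGroup (Fin k)) :=
    alternatingGroup.isSimpleGroup (by rw [Nat.card_fin]; omega)
  have hc1 : c ≠ 1 := by
    rintro rfl
    exact hc0 rfl
  intro α β hαβ
  -- simple kernel dichotomy
  rcases (inferInstance : α.ker.Normal).eq_bot_or_eq_top with hα | hα
  swap
  · have hαc : ∀ t, α t = 1 := fun t => by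
      have : t ∈ α.ker := by rw [hα]; trivial
      exact this
    have hβc : β c = 1 := by rw [← hαβ c (Or.inl rfl)]; exact hαc c
    rcases (inferInstance : β.ker.Normal).eq_bot_or_eq_top with hβ | hβ
    · exfalso
      have : c ∈ β.ker := hβc
      rw [hβ] at this
      exact hc1 (Subgroup.mem_bot.1 this)
    · intro t
      have : t ∈ β.ker := by rw [hβ]; trivial
      rw [hαc t]
      exact this.symm
  have hαinj : Injective α := (MonoidHom.ker_eq_bot_iff α).1 hα
  have hαbij : Bijective α := ⟨hαinj, Finite.injective_iff_surjective.1 hαinj⟩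
  let e := MulEquiv.ofBijective α hαbij
  have hβinj : Injective β := by
    rcases (inferInstance : β.ker.Normal).eq_bot_or_eq_top with hβ | hβ
    · exact (MonoidHom.ker_eq_bot_iff β).1 hβ
    · exfalso
      apply hc1
      apply hαinj
      rw [hαβ c (Or.inl rfl), map_one]
      have : c ∈ β.ker := by rw [hβ]; trivial
      exact this
  let θ : alternatingGroup (Fin k) →* alternatingGroup (Fin k) := e.symm.toMonoidHom.comp β
  have hθ : ∀ b, (b * c = c * b ∨ b * c = c⁻¹ * b) → θ b = b := by
    intro b hb
    change e.symm (β b) = b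
    rw [← hαβ b hb]
    exact e.symm_apply_apply b
  suffices hall : ∀ t, θ t = t by
    intro t
    have h3 := hall t
    change e.symm (β t) = t at h3
    have h4 := congrArg e h3
    rw [e.apply_symm_apply] at h4
    exact h4.symm
  -- disjointness gives commuting
  have hdisj : ∀ b : alternatingGroup (Fin k), (∀ y, b.1 y = y ∨ c.1 y = y) → θ b = b := by
    intro b hb
    apply hθ
    left
    apply Subtype.ext
    exact comm_of_disj hb
  -- good elements are fixed
  have hgood : ∀ g : alternatingGroup (Fin k), (∀ y, c.1 y ≠ y → c.1 (g.1 y) = g.1 y) → θ g = g := by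
    intro g hg
    set z : alternatingGroup (Fin k) := g⁻¹ * θ g with hz
    have hcomm : ∀ b : alternatingGroup (Fin k), θ b = b → θ (g * b * g⁻¹) = g * b * g⁻¹ →
        z * b = b * z := by
      intro b hb hgb
      rw [map_mul, map_mul, map_inv, hb] at hgb
      have h3 : g⁻¹ * (θ g * b * (θ g)⁻¹) * θ g = g⁻¹ * (g * b * g⁻¹) * θ g := by rw [hgb]
      calc z * b = g⁻¹ * (θ g * b * (θ g)⁻¹) * θ g := by rw [hz]; group
        _ = g⁻¹ * (g * b * g⁻¹) * θ g := h3
        _ = b * z := by rw [hz]; group
    have hconj : ∀ (a b : alternatingGroup (Fin k)) (y : Fin k), (a * b * a⁻¹).1 y = y ↔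
        b.1 (a.1⁻¹ y) = a.1⁻¹ y := by
      intro a b y
      change a.1 (b.1 (a.1⁻¹ y)) = y ↔ _
      rw [← Perm.eq_inv_iff_eq]
    have hconj' : ∀ (a b : alternatingGroup (Fin k)) (y : Fin k), (a⁻¹ * b * a).1 y = y ↔
        b.1 (a.1 y) = a.1 y := by
      intro a b y
      change a.1⁻¹ (b.1 (a.1 y)) = y ↔ _
      rw [Perm.inv_eq_iff_eq]
    -- commute with c
    have hzc : z * c = c * z := by
      apply hcomm c (hθ c (Or.inl rfl))
      apply hdisj
      intro y
      rw [hconj]
      by_cases h3 : c.1 (g.1⁻¹ y) = g.1⁻¹ y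
      · exact Or.inl h3
      · right
        have := hg _ h3
        simpa using this
    have hzr : z * r = r * z := by
      apply hcomm r (hθ r (Or.inr hrc'))
      apply hdisj
      intro y
      rw [hconj]
      by_cases h3 : c.1 (g.1⁻¹ y) = g.1⁻¹ y
      · exact Or.inl (hrc _ h3)
      · right
        have := hg _ h3
        simpa using this
    have hzc2 : z * (g⁻¹ * c * g) = (g⁻¹ * c * g) * z := by
      apply hcomm
      · apply hdisj
        intro y
        rw [hconj']
        by_cases h3 : c.1 y = y
        · exact Or.inr h3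
        · exact Or.inl (hg y h3)
      · rw [show g * (g⁻¹ * c * g) * g⁻¹ = c by group]
        exact hθ c (Or.inl rfl)
    have hzr2 : z * (g⁻¹ * r * g) = (g⁻¹ * r * g) * z := by
      apply hcomm
      · apply hdisj
        intro y
        rw [hconj']
        by_cases h3 : c.1 y = y
        · exact Or.inr h3
        · exact Or.inl (hrc _ (hg y h3))
      · rw [show g * (g⁻¹ * r * g) * g⁻¹ = r by group]
        exact hθ r (Or.inr hrc')
    have hfix1 : ∀ y, c.1 y ≠ y → z.1 y = y :=
      fix_aux h1 h2 hc0 hr0 (congrArg Subtype.val hzc) (congrArg Subtype.val hzr)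
    have hfix2 : ∀ y, c.1 (g.1 y) ≠ g.1 y → z.1 y = y := by
      intro y hy
      have h3 : (g * z * g⁻¹) * c = c * (g * z * g⁻¹) := by
        calc (g * z * g⁻¹) * c = g * (z * (g⁻¹ * c * g)) * g⁻¹ := by group
          _ = c * (g * z * g⁻¹) := by rw [hzc2]; group
      have h4 : (g * z * g⁻¹) * r = r * (g * z * g⁻¹) := by
        calc (g * z * g⁻¹) * r = g * (z * (g⁻¹ * r * g)) * g⁻¹ := by group
          _ = r * (g * z * g⁻¹) := by rw [hzr2]; group
      have h5 := fix_aux h1 h2 hc0 hr0 (congrArg Subtype.val h3) (congrArg Subtype.val h4) _ hy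
      rw [hconj] at h5
      simpa using h5
    have hz1 : z = 1 := by
      apply Subtype.ext
      apply Equiv.ext
      intro x
      change z.1 x = x
      by_contra hne
      have hcx : c.1 x = x := by
        by_contra h; exact hne (hfix1 x h)
      have hcgx : c.1 (g.1 x) = g.1 x := by
        by_contra h; exact hne (hfix2 x h)
      -- choose two more points
      let Bad : Finset (Fin k) := c.1.support ∪ (c.1.support.image (fun u => g.1⁻¹ u)) ∪ {x, z.1 x}
      have hBad : Bad.card ≤ 12 := by
        calc Bad.card ≤ (c.1.support ∪ (c.1.support.image (fun u => g.1⁻¹ u))).card + ({x, z.1 x} : Finset (Fin k)).card :=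
              Finset.card_union_le _ _
          _ ≤ (c.1.support.card + (c.1.support.image (fun u => g.1⁻¹ u)).card) + 2 :=
              Nat.add_le_add (Finset.card_union_le _ _) Finset.card_le_two
          _ ≤ (5 + 5) + 2 := by
              have := Finset.card_image_le (s := c.1.support) (f := fun u => g.1⁻¹ u)
              omega
      have hBadc : 2 ≤ Badᶜ.card := by
        rw [Finset.card_compl, Fintype.card_fin]; omega
      obtain ⟨v, hv, w, hw, hvw⟩ := Finset.one_lt_card.1 hBadc
      have hprop : ∀ u, u ∈ Badᶜ → c.1 u = u ∧ c.1 (g.1 u) = g.1 u ∧ u ≠ x ∧ u ≠ z.1 x := by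
        intro u hu
        rw [Finset.mem_compl] at hu
        simp only [Bad, Finset.mem_union, not_or, Finset.mem_insert, Finset.mem_singleton,
          Perm.mem_support, not_not, Finset.mem_image, not_exists, not_and] at hu
        obtain ⟨⟨hu1, hu2⟩, hu3, hu4⟩ := hu
        refine ⟨hu1, ?_, hu3, hu4⟩
        by_contra h
        exact hu2 (g.1 u) h (by simp)
      obtain ⟨hv1, hv2, hv3, hv4⟩ := hprop v hv
      obtain ⟨hw1, hw2, hw3, hw4⟩ := hprop w hw
      let b : alternatingGroup (Fin k) := ⟨Equiv.swap x v * Equiv.swap v w, by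
        rw [Perm.mem_alternatingGroup, map_mul, Perm.sign_swap (Ne.symm hv3), Perm.sign_swap hvw]
        rfl⟩
      have hbfix : ∀ y, y ≠ x → y ≠ v → y ≠ w → b.1 y = y := by
        intro y hy1 hy2 hy3
        change Equiv.swap x v (Equiv.swap v w y) = y
        rw [Equiv.swap_apply_of_ne_of_ne hy2 hy3, Equiv.swap_apply_of_ne_of_ne hy1 hy2]
      have hbx : b.1 x = v := by
        change Equiv.swap x v (Equiv.swap v w x) = v
        rw [Equiv.swap_apply_of_ne_of_ne (Ne.symm hv3) (Ne.symm hw3), Equiv.swap_apply_left]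
      have hzb : z * b = b * z := by
        apply hcomm
        · apply hdisj
          intro y
          by_cases hyx : y = x
          · subst hyx; exact Or.inr hcx
          by_cases hyv : y = v
          · subst hyv; exact Or.inr hv1
          by_cases hyw : y = w
          · subst hyw; exact Or.inr hw1
          · exact Or.inl (hbfix y hyx hyv hyw)
        · apply hdisj
          intro y
          rw [hconj]
          by_cases hyx : g.1⁻¹ y = x
          · right
            have : y = g.1 x := by rw [← hyx]; simp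
            rw [this]; exact hcgx
          by_cases hyv : g.1⁻¹ y = v
          · right
            have : y = g.1 v := by rw [← hyv]; simp
            rw [this]; exact hv2
          by_cases hyw : g.1⁻¹ y = w
          · right
            have : y = g.1 w := by rw [← hyw]; simp
            rw [this]; exact hw2
          · exact Or.inl (hbfix _ hyx hyv hyw)
      have h6 : z.1 (b.1 x) = b.1 (z.1 x) := congrArg (fun p : alternatingGroup (Fin k) => p.1 x) hzb
      rw [hbx, hbfix (z.1 x) hne (Ne.symm hv4) (Ne.symm hw4)] at h6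
      exact hv3 (z.1.injective h6)
    have : θ g = g * z := by rw [hz]; group
    rw [this, hz1, mul_one]
  -- three cycles are fixed
  have hthree : ∀ s : alternatingGroup (Fin k), Perm.IsThreeCycle s.1 → θ s = s := by
    intro s hs
    obtain ⟨g, hg⟩ := exists_good hk (c.1.support ∪ s.1.support) c.1.support
      (by
        have h3 := Finset.card_union_le c.1.support s.1.support
        rw [hs.card_support] at h3
        omega) hcard
    have hg' : ∀ y, (c.1 y ≠ y ∨ s.1 y ≠ y) → c.1 (g.1 y) = g.1 y := by
      intro y hy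
      have h3 := hg y (by
        rw [Finset.mem_union, Perm.mem_support, Perm.mem_support]; exact hy)
      rw [Perm.mem_support, not_not] at h3
      exact h3
    have h3 : θ g = g := hgood g (fun y hy => hg' y (Or.inl hy))
    have h4 : θ (g * s * g⁻¹) = g * s * g⁻¹ := by
      apply hdisj
      intro y
      by_cases h5 : s.1 (g.1⁻¹ y) = g.1⁻¹ y
      · left
        change g.1 (s.1 (g.1⁻¹ y)) = y
        rw [h5]; simp
      · right
        have := hg' _ (Or.inr h5)
        simpa using this
    rw [map_mul, map_mul, map_inv, h3] at h4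
    exact mul_left_cancel (mul_right_cancel h4)
  -- conclusion
  have htop : MonoidHom.eqLocus θ (MonoidHom.id _) = ⊤ := by
    rw [eq_top_iff, ← alternatingGroup.closure_isThreeCycles_eq_top, Subgroup.closure_le]
    intro s hs
    exact hthree s hs
  intro t
  have : t ∈ MonoidHom.eqLocus θ (MonoidHom.id _) := by rw [htop]; trivial
  exact this

end Pool.Agent.Helper732.HopfZG
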