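import Pool.Agent.Helper732.HopfZG.RingSide

set_option autoImplicit false

namespace Pool.Agent.Helper732.HopfZG

section DS

variable (W : ℕ → Type) [∀ n, Group (W n)]

/-- direct sum, as the finite support subgroup of the product -/
def DS : Subgroup (∀ n, W n) where
  carrier := {g | ∃ N, ∀ n, N ≤ n → g n = 1}
  one_mem' := ⟨0, fun _ _ => rfl⟩
  mul_mem' := by
    rintro a b ⟨N, hN⟩ ⟨M, hM⟩
    refine ⟨max N M, fun n hn => ?_⟩
    rw [Pi.mul_apply, hN n (le_trans (le_max_left _ _) hn), hM n (le_trans (le_max_right _ _) hn),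
      mul_one]
  inv_mem' := by
    rintro a ⟨N, hN⟩
    exact ⟨N, fun n hn => by rw [Pi.inv_apply, hN n hn, inv_one]⟩

variable {W}

/-- inclusion of a summand -/
def inc (i : ℕ) : W i →* DS W where
  toFun w := ⟨Pi.mulSingle i w, i + 1, fun n hn => by
    rw [Pi.mulSingle_eq_of_ne (by omega)]⟩
  map_one' := by ext1; simp
  map_mul' a b := by
    apply Subtype.ext
    change Pi.mulSingle i (a * b) = Pi.mulSingle i a * Pi.mulSingle i b
    rw [Pi.mulSingle_mul]

@[simp] lemma inc_same (i : ℕ) (w : W i) : (inc i w : DS W).1 i = w := by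
  simp [inc]

lemma inc_ne {i j : ℕ} (h : j ≠ i) (w : W i) : (inc i w : DS W).1 j = 1 := by
  simp [inc, h]

lemma inc_commute {i j : ℕ} (h : i ≠ j) (a : W i) (b : W j) : Commute (inc i a : DS W) (inc j b) := by
  apply Subtype.ext
  exact Pi.mulSingle_commute h a b

variable {M : Type*} [Monoid M] (φ : ∀ i, W i →* M)

/-- finite products of initial segments -/
def part : ℕ → (∀ n, W n) → M
  | 0, _ => 1
  | n + 1, g => part n g * φ n (g n)

lemma part_commute (hφ : ∀ i j, i ≠ j → ∀ x y, Commute (φ i x) (φ j y)) (n : ℕ) :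
    ∀ m, n ≤ m → ∀ (g : ∀ n, W n) (x : W m), Commute (part φ n g) (φ m x) := by
  induction n with
  | zero => intro m _ g x; exact Commute.one_left _
  | succ n ih =>
    intro m hm g x
    exact (ih m (by omega) g x).mul_left (hφ _ _ (by omega) _ _)

lemma part_mul (hφ : ∀ i j, i ≠ j → ∀ x y, Commute (φ i x) (φ j y)) (n : ℕ) (g h : ∀ n, W n) :
    part φ n (g * h) = part φ n g * part φ n h := by
  induction n with
  | zero => simp [part]
  | succ n ih =>
    simp only [part]
    rw [ih, Pi.mul_apply, map_mul]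
    have := (part_commute φ hφ n n le_rfl h (g n)).eq
    calc part φ n g * part φ n h * (φ n (g n) * φ n (h n))
        = part φ n g * (part φ n h * φ n (g n)) * φ n (h n) := by simp only [mul_assoc]
      _ = part φ n g * φ n (g n) * (part φ n h * φ n (h n)) := by
        rw [this]; simp only [mul_assoc]

lemma part_one (n : ℕ) : part φ n 1 = 1 := by
  induction n with
  | zero => rfl
  | succ n ih => simp [part, ih]

lemma part_stable {N : ℕ} {g : ∀ n, W n} (hg : ∀ n, N ≤ n → g n = 1) (n : ℕ) (hn : N ≤ n) :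
    part φ n g = part φ N g := by
  induction n, hn using Nat.le_induction with
  | base => rfl
  | succ n hn ih => rw [part, ih, hg n hn, map_one, mul_one]

/-- universal property of the direct sum -/
noncomputable def dsLift (hφ : ∀ i j, i ≠ j → ∀ x y, Commute (φ i x) (φ j y)) : DS W →* M where
  toFun g := part φ g.2.choose g.1
  map_one' := part_one φ _
  map_mul' := by
    intro g h
    set N := max (max (g * h).2.choose g.2.choose) h.2.choose with hN
    rw [← part_stable φ (g * h).2.choose_spec N (by omega),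
      ← part_stable φ g.2.choose_spec N (by omega),
      ← part_stable φ h.2.choose_spec N (by omega)]
    exact part_mul φ hφ N g.1 h.1

lemma dsLift_eq (hφ : ∀ i j, i ≠ j → ∀ x y, Commute (φ i x) (φ j y)) (g : DS W) {N : ℕ}
    (hN : ∀ n, N ≤ n → g.1 n = 1) : dsLift φ hφ g = part φ N g.1 := by
  change part φ g.2.choose g.1 = _
  rw [← part_stable φ g.2.choose_spec (max g.2.choose N) (le_max_left _ _),
    ← part_stable φ hN (max g.2.choose N) (le_max_right _ _)]

lemma part_mulSingle_lt (i : ℕ) (w : W i) (n : ℕ) (h : n ≤ i) :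
    part φ n (Pi.mulSingle i w) = 1 := by
  induction n with
  | zero => rfl
  | succ n ih =>
    rw [part, ih (by omega), Pi.mulSingle_eq_of_ne (by omega), map_one, mul_one]

@[simp] lemma dsLift_inc (hφ : ∀ i j, i ≠ j → ∀ x y, Commute (φ i x) (φ j y)) (i : ℕ) (w : W i) :
    dsLift φ hφ (inc i w) = φ i w := by
  rw [dsLift_eq φ hφ (inc i w) (N := i + 1) (fun n hn => inc_ne (by omega) w)]
  change part φ (i + 1) (Pi.mulSingle i w) = _
  rw [part, part_mulSingle_lt φ i w i le_rfl, Pi.mulSingle_eq_same, one_mul]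

lemma part_inc (n : ℕ) (g : ∀ n, W n) (m : ℕ) :
    (part (fun i => (inc i : W i →* DS W)) n g).1 m = if m < n then g m else 1 := by
  induction n with
  | zero => simp [part]
  | succ n ih =>
    rw [part]
    change (part (fun i => (inc i : W i →* DS W)) n g).1 m * (inc n (g n) : DS W).1 m = _
    rw [ih]
    by_cases h : m = n
    · subst h; simp
    · rw [inc_ne h, mul_one]
      by_cases h2 : m < n
      · rw [if_pos h2, if_pos (by omega)]
      · rw [if_neg h2, if_neg (by omega)]

lemma eq_part_inc (g : DS W) : ∃ N, g = part (fun i => (inc i : W i →* DS W)) N g.1 := by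
  obtain ⟨N, hN⟩ := g.2
  refine ⟨N, ?_⟩
  apply Subtype.ext
  funext m
  rw [part_inc]
  by_cases h : m < N
  · rw [if_pos h]
  · rw [if_neg h, hN m (by omega)]

lemma map_part {M' : Type*} [Monoid M'] (f : M →* M') (n : ℕ) (g : ∀ n, W n) :
    f (part φ n g) = part (fun i => f.comp (φ i)) n g := by
  induction n with
  | zero => simp [part]
  | succ n ih => simp [part, ih]

lemma part_congr {φ φ' : ∀ i, W i →* M} (n : ℕ) (g : ∀ n, W n) (h : ∀ i, φ i (g i) = φ' i (g i)) :
    part φ n g = part φ' n g := by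
  induction n with
  | zero => rfl
  | succ n ih => rw [part, part, ih, h]

lemma DS_ext {f f' : DS W →* M} (h : ∀ i w, f (inc i w) = f' (inc i w)) : f = f' := by
  ext g
  obtain ⟨N, hN⟩ := eq_part_inc g
  rw [hN, map_part, map_part]
  apply part_congr
  intro i
  exact h i _

lemma part_mem (S : Submonoid M) (n : ℕ) (g : ∀ n, W n) (h : ∀ i, φ i (g i) ∈ S) :
    part φ n g ∈ S := by
  induction n with
  | zero => exact S.one_mem
  | succ n ih => exact S.mul_mem ih (h n)

lemma DS_mem (S : Submonoid (DS W)) (h : ∀ i w, inc i w ∈ S) (g : DS W) : g ∈ S := by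
  obtain ⟨N, hN⟩ := eq_part_inc g
  rw [hN]
  exact part_mem _ S N g.1 (fun i => h i _)

/-- the ring endomorphism -/
theorem exists_ring_endo (hRO : ∀ n, RO (W (n + 1)) (W n)) (h0 : ∃ w : W 0, w ≠ 1) :
    ∃ Φ : MonoidAlgebra ℤ (DS W) →+* MonoidAlgebra ℤ (DS W),
      Function.Surjective Φ ∧ ¬ Function.Injective Φ := by
  choose ψ hψ using hRO
  let I : ∀ n, MonoidAlgebra ℤ (W n) →+* MonoidAlgebra ℤ (DS W) := fun n =>
    MonoidAlgebra.mapDomainRingHom ℤ (inc n)
  let φ : ∀ i, W i →* MonoidAlgebra ℤ (DS W) := fun i =>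
    match i with
    | 0 => 1
    | n + 1 => ((I n : MonoidAlgebra ℤ (W n) →* MonoidAlgebra ℤ (DS W))).comp (ψ n)
  have hφ0 : ∀ x, φ 0 x = 1 := fun x => rfl
  have hφ1 : ∀ n x, φ (n + 1) x = I n (ψ n x) := fun n x => rfl
  have hφ : ∀ i j, i ≠ j → ∀ x y, Commute (φ i x) (φ j y) := by
    intro i j hij x y
    rcases i with _ | i
    · rw [hφ0]; exact Commute.one_left _
    · rcases j with _ | j
      · rw [hφ0]; exact Commute.one_right _
      · rw [hφ1, hφ1]
        exact commute_map _ _ (fun a b => inc_commute (by omega) a b) _ _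
  let Ψ := dsLift φ hφ
  have hΨ : Subring.closure (Set.range Ψ) = ⊤ := by
    set S := Subring.closure (Set.range Ψ) with hS
    apply subring_top_of_gr
    intro g
    have h1 : ∀ n w, MonoidAlgebra.of ℤ (DS W) (inc n w) ∈ S := by
      intro n w
      have h2 : ∀ x, I n x ∈ S := by
        apply mem_of_gen (hψ n)
        intro a
        apply Subring.subset_closure
        refine ⟨inc (n + 1) a, ?_⟩
        change dsLift φ hφ (inc (n + 1) a) = _
        rw [dsLift_inc]
        exact hφ1 n a
      have h3 := h2 (MonoidAlgebra.of ℤ _ w)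
      simp only [I, map_of] at h3
      exact h3
    exact DS_mem (S.toSubmonoid.comap (MonoidAlgebra.of ℤ (DS W))) h1 g
  let Φ : MonoidAlgebra ℤ (DS W) →+* MonoidAlgebra ℤ (DS W) :=
    (MonoidAlgebra.lift ℤ (MonoidAlgebra ℤ (DS W)) (DS W) Ψ : MonoidAlgebra ℤ (DS W) →ₐ[ℤ]
      MonoidAlgebra ℤ (DS W)).toRingHom
  have hΦ : ∀ g, Φ (MonoidAlgebra.of ℤ (DS W) g) = Ψ g := by
    intro g
    exact MonoidAlgebra.lift_of Ψ g
  refine ⟨Φ, ?_, ?_⟩
  · have h1 : Φ.range = ⊤ := by
      rw [eq_top_iff, ← hΨ, Subring.closure_le]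
      rintro _ ⟨g, rfl⟩
      exact ⟨MonoidAlgebra.of ℤ (DS W) g, hΦ g⟩
    intro x
    have : x ∈ Φ.range := by rw [h1]; trivial
    exact this
  · intro hinj
    obtain ⟨w, hw⟩ := h0
    have h1 : Φ (MonoidAlgebra.of ℤ (DS W) (inc 0 w)) = Φ (MonoidAlgebra.of ℤ (DS W) 1) := by
      rw [hΦ, hΦ, map_one]
      change dsLift φ hφ (inc 0 w) = 1
      rw [dsLift_inc]
      exact hφ0 w
    have h2 := MonoidAlgebra.of_injective (hinj h1)
    apply hw
    have h3 := congrArg (fun g : DS W => g.1 0) h2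
    simpa using h3

end DS

end Pool.Agent.Helper732.HopfZG
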