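import Pool.Agent.Helper732.HopfZG.Alt

set_option autoImplicit false

/-!
# A Hopfian group whose integral group ring is not Hopfian

Overview of the construction.

* For `k ≥ 15` let `T = A_k`, let `c` be a 5-cycle and `u = c + c⁻¹ - 1`, a unit of `ℤ[T]`
  (its inverse is `c² + c⁻² - 1`). Put `X = T × T` and let `Y` be the subgroup of the units of
  `ℤ[T × T]` generated by the two copies `t ↦ (t, t)` and `t ↦ v (t, t) v⁻¹` of `T`,
  where `v = 1 ⊗ u`.
* `Y` generates the ring `ℤ[X]` (files Ident, Six, SixMain, UnitPart): the subring generated by the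
  products `u_a u_b`, for 5-cycles `a`, `b`, contains a nontrivial group element.
* Every homomorphism `Y → T` agrees on the two copies of `T` (file Alt: two endomorphisms of `A_k`
  which agree on the elements commuting with `u` are equal), so no power of `Y` maps onto the same
  power of `X`, and by counting no power of `X` maps onto the same power of `Y`. Powers of `Y` are
  finitely generated and residually finite, hence Hopfian. There are no nontrivial homomorphisms
  from a later level to an earlier one when the degrees grow fast.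
* With `Q_n = Y_0 × ... × Y_{n-1} × X_n` and `W_n` the wreath product of `Q_n` with `A_5`, the group
  `G = ⨁ W_n` is Hopfian (file Tower), and the maps `ℤ[W_{n+1}] → ℤ[W_n]` which replace `Y_n` by
  `X_n` give a surjective ring endomorphism of `ℤ[G]` which kills `W_0` (file DirSum).
-/

namespace Pool.Agent.Helper732.HopfZG

open Function Equiv

section Emb

variable {k : ℕ} (hk : 15 ≤ k)

/-- the embedding of the first six points -/
def e6 : Fin 6 ↪ Fin k := Fin.castLEEmb (by omega)

/-- the induced homomorphism of alternating groups -/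
def j6 : alternatingGroup (Fin 6) →* alternatingGroup (Fin k) where
  toFun a := ⟨a.1.extendDomain (e6 hk).toEquivRange, by
    rw [Perm.mem_alternatingGroup, Perm.sign_extendDomain]
    exact Perm.mem_alternatingGroup.1 a.2⟩
  map_one' := Subtype.ext (Perm.extendDomain_one _)
  map_mul' a b := Subtype.ext (Perm.extendDomain_mul _ _ _).symm

lemma j6_apply (a : alternatingGroup (Fin 6)) (i : Fin 6) :
    (j6 hk a).1 (e6 hk i) = e6 hk (a.1 i) :=
  Perm.extendDomain_apply_image a.1 (e6 hk).toEquivRange i

lemma j6_apply_ne (a : alternatingGroup (Fin 6)) (y : Fin k) (hy : ∀ i, y ≠ e6 hk i) :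
    (j6 hk a).1 y = y := by
  apply Perm.extendDomain_apply_not_subtype
  rintro ⟨i, hi⟩
  exact hy i hi.symm

lemma j6_inj : Injective (j6 hk) := by
  rw [injective_iff_map_eq_one]
  intro a ha
  apply Subtype.ext
  apply Equiv.ext
  intro i
  have h1 := j6_apply hk a i
  rw [ha] at h1
  exact ((e6 hk).injective h1).symm

lemma ct5 {a : Perm (Fin 6)} (ha : a ^ 5 = 1) (ha1 : a ≠ 1) : a.cycleType = {5} := by
  have : Fact (Nat.Prime 5) := ⟨by norm_num⟩
  have h1 : orderOf a = 5 := orderOf_eq_prime ha ha1
  have h2 : a.IsCycle := Perm.isCycle_of_prime_order' (by rw [h1]; norm_num) (by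
    rw [h1, Fintype.card_fin]; norm_num)
  rw [h2.cycleType, ← h2.orderOf, h1]

lemma j6_conj {a b : alternatingGroup (Fin 6)} (ha : a ^ 5 = 1) (ha1 : a ≠ 1)
    (hb : b ^ 5 = 1) (hb1 : b ≠ 1) : IsConj (j6 hk a) (j6 hk b) := by
  have hca : (j6 hk a).1.cycleType = {5} := by
    change (a.1.extendDomain (e6 hk).toEquivRange).cycleType = {5}
    rw [Perm.cycleType_extendDomain]
    exact ct5 (congrArg Subtype.val ha) (fun h => ha1 (Subtype.ext h))
  have hcb : (j6 hk b).1.cycleType = {5} := by
    change (b.1.extendDomain (e6 hk).toEquivRange).cycleType = {5}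
    rw [Perm.cycleType_extendDomain]
    exact ct5 (congrArg Subtype.val hb) (fun h => hb1 (Subtype.ext h))
  apply alternatingGroup.isConj_of
  · rw [Perm.isConj_iff_cycleType_eq, hca, hcb]
  · rw [← Perm.sum_cycleType, hca, Fintype.card_fin]
    simp only [Multiset.sum_singleton]
    omega

/-- the reflection -/
def r14 : alternatingGroup (Fin 6) := ⟨pm ![0,4,3,2,1,5] ![0,4,3,2,1,5] (by decide), by
  rw [Equiv.Perm.mem_alternatingGroup]; decide⟩

lemma rigid_c : Rigid (j6 hk Six.c01234) := by
  apply rigid_alt hk (j6 hk Six.c01234) (j6 hk r14) (e6 hk 0)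
  · intro y hy
    by_cases h : ∃ i, y = e6 hk i
    · obtain ⟨i, rfl⟩ := h
      rw [j6_apply] at hy
      have h1 : Six.c01234.1 i ≠ i := fun h => hy (by rw [h])
      have h2 : ∀ i : Fin 6, Six.c01234.1 i ≠ i → ∃ n : Fin 5, (Six.c01234 ^ (n : ℕ)).1 0 = i := by
        decide
      obtain ⟨n, hn⟩ := h2 i h1
      refine ⟨n, ?_⟩
      rw [← hn, ← j6_apply, map_pow]
      rfl
    · exfalso
      apply hy
      apply j6_apply_ne
      intro i hi
      exact h ⟨i, hi⟩
  · intro y hy hry
    by_cases h : ∃ i, y = e6 hk i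
    · obtain ⟨i, rfl⟩ := h
      rw [j6_apply] at hy hry
      have h1 : Six.c01234.1 i ≠ i := fun h => hy (by rw [h])
      have h2 : r14.1 i = i := (e6 hk).injective hry
      have h3 : ∀ i : Fin 6, Six.c01234.1 i ≠ i → r14.1 i = i → i = 0 := by decide
      rw [h3 i h1 h2]
    · exfalso
      apply hy
      apply j6_apply_ne
      intro i hi
      exact h ⟨i, hi⟩
  · rw [j6_apply]
    intro h
    have := (e6 hk).injective h
    revert this
    decide
  · rw [j6_apply]
    rfl
  · intro y hy
    by_cases h : ∃ i, y = e6 hk i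
    · obtain ⟨i, rfl⟩ := h
      rw [j6_apply] at hy ⊢
      have h1 : Six.c01234.1 i = i := (e6 hk).injective hy
      have h3 : ∀ i : Fin 6, Six.c01234.1 i = i → r14.1 i = i := by decide
      rw [h3 i h1]
    · apply j6_apply_ne
      intro i hi
      exact h ⟨i, hi⟩
  · rw [← map_mul, ← map_inv, ← map_mul]
    congr 1
    decide
  · rw [← Perm.sum_cycleType]
    change (Six.c01234.1.extendDomain (e6 hk).toEquivRange).cycleType.sum ≤ 5
    rw [Perm.cycleType_extendDomain, ct5 (by decide) (by decide)]
    simp

lemma pow5_c : (j6 hk Six.c01234) ^ 5 = 1 := by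
  rw [← map_pow, show Six.c01234 ^ 5 = 1 from by decide, map_one]

lemma gen_c : CY (j6 hk Six.c01234) (pow5_c hk) = ⊤ := by
  have hsimple : IsSimpleGroup (alternatingGroup (Fin k)) :=
    alternatingGroup.isSimpleGroup (by rw [Nat.card_fin]; omega)
  apply CY_eq_top
  apply EE_eq_top (pow5_c hk) (j := j6 hk)
  · rw [← map_pow]
    exact j6_conj hk (by decide) (by decide) (by decide) (by decide)
  · intro a ha ha1
    exact j6_conj hk (by decide) (by decide) ha ha1
  · intro h
    have h1 : Six.c053c124 = 1 := j6_inj hk (by rw [h, map_one])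
    exact Six.elt_ne h1

/-- the level data for the alternating group on at least 15 points -/
def levelAlt : Level (alternatingGroup (Fin k)) where
  fin := inferInstance
  simple := alternatingGroup.isSimpleGroup (by rw [Nat.card_fin]; omega)
  nc := ⟨j6 hk Six.c124, j6 hk Six.c134, by
    intro h
    rw [← map_mul, ← map_mul] at h
    have := j6_inj hk h
    revert this
    decide⟩
  c := j6 hk Six.c01234
  hc := pow5_c hk
  rigid := rigid_c hk
  gen := gen_c hk
  x := j6 hk Six.c124
  hx := by rw [← map_pow, show Six.c124 ^ 3 = 1 from by decide, map_one]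
  hx1 := by
    intro h
    have h1 : Six.c124 = 1 := j6_inj hk (by rw [h, map_one])
    revert h1
    decide

end Emb

/-- the sequence of degrees -/
def kk : ℕ → ℕ
  | 0 => 15
  | n + 1 => 15 + kk n + 2 ^ ((kk n).factorial * (kk n).factorial)

lemma kk_ge (n : ℕ) : 15 ≤ kk n := by
  cases n with
  | zero => exact le_rfl
  | succ n =>
    rw [kk, Nat.add_assoc]
    exact Nat.le_add_right _ _

lemma kk_mono : Monotone kk := by
  apply monotone_nat_of_le_succ
  intro n
  rw [kk, Nat.add_comm 15, Nat.add_assoc]
  exact Nat.le_add_right _ _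

lemma card_alt_le (k : ℕ) : Nat.card (alternatingGroup (Fin k)) ≤ k.factorial := by
  have h := Nat.card_le_card_of_injective (fun g : alternatingGroup (Fin k) => g.1)
    Subtype.val_injective
  rwa [Nat.card_perm, Nat.card_fin] at h

lemma card_alt_ge {k : ℕ} (hk : 15 ≤ k) : k * (k - 1) ≤ 2 * Nat.card (alternatingGroup (Fin k)) := by
  have : Nontrivial (Fin k) := Fin.nontrivial_iff_two_le.2 (by omega)
  rw [two_mul_nat_card_alternatingGroup, Nat.card_perm, Nat.card_fin]
  obtain ⟨m, rfl⟩ : ∃ m, k = m + 1 := ⟨k - 1, by omega⟩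
  rw [Nat.factorial_succ]
  exact Nat.mul_le_mul_left _ (Nat.self_le_factorial m)

lemma card_alt_ge' {k : ℕ} (hk : 15 ≤ k) : k ≤ Nat.card (alternatingGroup (Fin k)) := by
  have h := card_alt_ge hk
  have h2 : k * 2 ≤ k * (k - 1) := Nat.mul_le_mul_left _ (by omega)
  omega

theorem final : ∃ (G : Type) (_ : Group G), (∀ f : G →* G, Surjective f → Injective f) ∧
      ∃ Φ : MonoidAlgebra ℤ G →+* MonoidAlgebra ℤ G, Surjective Φ ∧ ¬ Injective Φ := by
  have hK : IsSimpleGroup (alternatingGroup (Fin 5)) :=
    alternatingGroup.isSimpleGroup (by rw [Nat.card_fin])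
  apply levels_main (fun n => alternatingGroup (Fin (kk n))) (fun n => levelAlt (kk_ge n))
    (alternatingGroup (Fin 5))
  · refine ⟨⟨Equiv.swap 0 1 * Equiv.swap 1 2, by rw [Perm.mem_alternatingGroup]; decide⟩,
      ⟨Equiv.swap 1 2 * Equiv.swap 2 3, by rw [Perm.mem_alternatingGroup]; decide⟩, ?_⟩
    decide
  · intro n
    have h1 : Nat.card (alternatingGroup (Fin 5)) ≤ 60 := by
      have h2 : 2 * Nat.card (alternatingGroup (Fin 5)) = Nat.card (Perm (Fin 5)) :=
        two_mul_nat_card_alternatingGroup
      rw [Nat.card_perm, Nat.card_fin] at h2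
      have h3 : Nat.factorial 5 = 120 := rfl
      omega
    have h2 := card_alt_ge (kk_ge n)
    have h3 : 15 * 14 ≤ kk n * (kk n - 1) := Nat.mul_le_mul (kk_ge n) (by have := kk_ge n; omega)
    omega
  · intro m n hmn
    have h1 : kk (m + 1) ≤ kk n := kk_mono hmn
    have h2 : 2 ^ Nat.card (alternatingGroup (Fin (kk m)) × alternatingGroup (Fin (kk m))) ≤
        2 ^ ((kk m).factorial * (kk m).factorial) := by
      apply Nat.pow_le_pow_right (by norm_num)
      rw [Nat.card_prod]
      exact Nat.mul_le_mul (card_alt_le _) (card_alt_le _)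
    have h3 : 2 ^ ((kk m).factorial * (kk m).factorial) < kk (m + 1) := by
      simp only [kk]; omega
    have h4 := card_alt_ge' (kk_ge n)
    omega

end Pool.Agent.Helper732.HopfZG
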