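import Pool.Agent.Helper732.HopfZG.RingSide

set_option autoImplicit false

namespace Pool.Agent.Helper732.HopfZG

lemma eq_bs_inl'' {B K : Type} [Group B] [Group K] (w : B ≀ᵣ K) :
    w = (⟨w.left, 1⟩ : B ≀ᵣ K) * RegularWreathProduct.inl w.right := by
  ext x <;> simp

open scoped Classical in
section

variable {B B' K : Type} [Group B] [Group B'] [Group K] [Fintype K]

/-- base embedding at a coordinate -/
noncomputable def sg (B : Type) [Group B] {K : Type} [Group K] (ω : K) : B →* (B ≀ᵣ K) where
  toFun b := ⟨Pi.mulSingle ω b, 1⟩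
  map_one' := by ext <;> simp
  map_mul' a b := by
    ext x
    · simp [Pi.mulSingle_mul]
    · simp

/-- base embedding -/
def bs (B : Type) [Group B] (K : Type) [Group K] : (K → B) →* (B ≀ᵣ K) where
  toFun b := ⟨b, 1⟩
  map_one' := by ext <;> simp
  map_mul' a b := by ext <;> simp

lemma bs_mulSingle (ω : K) (b : B) : bs B K (Pi.mulSingle ω b) = sg B ω b := rfl

lemma sg_commute {ω ω' : K} (h : ω ≠ ω') (a b : B) : Commute (sg B ω a) (sg B ω' b) := by
  rw [← bs_mulSingle, ← bs_mulSingle]
  exact (Pi.mulSingle_commute h a b).map (bs B K)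

lemma inl_sg (k ω : K) (b : B) :
    (RegularWreathProduct.inl k : B ≀ᵣ K) * sg B ω b = sg B (k * ω) b * RegularWreathProduct.inl k := by
  ext x
  · simp only [RegularWreathProduct.mul_left, sg, MonoidHom.coe_mk, OneHom.coe_mk, Pi.mul_apply,
      RegularWreathProduct.left_inl, RegularWreathProduct.right_inl, Pi.one_apply, one_mul, mul_one]
    by_cases h : x = k * ω
    · subst h; simp
    · rw [Pi.mulSingle_eq_of_ne h, Pi.mulSingle_eq_of_ne]
      intro h2
      apply h
      rw [← h2]; simp
  · simp [sg]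

omit [Fintype K] in
lemma eq_bs_inl (w : B ≀ᵣ K) : w = bs B K w.left * RegularWreathProduct.inl w.right := by
  ext x <;> simp [bs]

theorem RO.wreath (h : RO B B') : RO (B ≀ᵣ K) (B' ≀ᵣ K) := by
  obtain ⟨ψ, hψ⟩ := h
  let I : K → MonoidAlgebra ℤ B' →+* MonoidAlgebra ℤ (B' ≀ᵣ K) := fun ω =>
    MonoidAlgebra.mapDomainRingHom ℤ (sg B' ω)
  let φ : K → B →* MonoidAlgebra ℤ (B' ≀ᵣ K) := fun ω =>
    ((I ω : MonoidAlgebra ℤ B' →* MonoidAlgebra ℤ (B' ≀ᵣ K))).comp ψ
  have hφ : ∀ ω b, φ ω b = I ω (ψ b) := fun _ _ => rfl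
  have hcomm : Pairwise fun i j => ∀ x y, Commute (φ i x) (φ j y) := by
    intro i j hij x y
    exact commute_map (sg B' i) (sg B' j) (fun a b => sg_commute hij a b) (ψ x) (ψ y)
  let P : (K → B) →* MonoidAlgebra ℤ (B' ≀ᵣ K) := MonoidHom.noncommPiCoprod φ hcomm
  have hP : ∀ ω b, P (Pi.mulSingle ω b) = I ω (ψ b) := by
    intro ω b
    exact MonoidHom.noncommPiCoprod_mulSingle φ ω b
  let gK : K → MonoidAlgebra ℤ (B' ≀ᵣ K) := fun k => MonoidAlgebra.of ℤ _ (RegularWreathProduct.inl k)
  have hgK : ∀ k l, gK (k * l) = gK k * gK l := by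
    intro k l
    simp only [gK, map_mul]
  have hgI : ∀ (k ω : K) (x : MonoidAlgebra ℤ B'), gK k * I ω x = I (k * ω) x * gK k := by
    intro k ω x
    induction x using MonoidAlgebra.induction_on with
    | of b =>
      simp only [I, gK, map_of]
      rw [← map_mul, ← map_mul, inl_sg]
    | add x y hx hy => rw [map_add, map_add, mul_add, add_mul, hx, hy]
    | smul r x hx => rw [map_zsmul, map_zsmul, mul_smul_comm, smul_mul_assoc, hx]
  have hgP : ∀ (k : K) (b : K → B), gK k * P b * gK k⁻¹ = P (fun x => b (k⁻¹ * x)) := by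
    intro k b
    have hkk : gK k * gK k⁻¹ = 1 := by rw [← hgK]; simp [gK, MonoidAlgebra.one_def]
    have hkk' : gK k⁻¹ * gK k = 1 := by rw [← hgK]; simp [gK, MonoidAlgebra.one_def]
    let F : (K → B) →* MonoidAlgebra ℤ (B' ≀ᵣ K) :=
      { toFun := fun b => gK k * P b * gK k⁻¹
        map_one' := by rw [map_one, mul_one, hkk]
        map_mul' := by
          intro a b
          calc gK k * P (a * b) * gK k⁻¹ = gK k * P a * 1 * P b * gK k⁻¹ := by
                rw [map_mul]; simp only [mul_one, mul_assoc]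
            _ = gK k * P a * gK k⁻¹ * (gK k * P b * gK k⁻¹) := by
                rw [← hkk']; simp only [mul_assoc] }
    let G : (K → B) →* MonoidAlgebra ℤ (B' ≀ᵣ K) :=
      { toFun := fun b => P (fun x => b (k⁻¹ * x))
        map_one' := by
          have : (fun x : K => (1 : K → B) (k⁻¹ * x)) = 1 := rfl
          rw [this, map_one]
        map_mul' := by
          intro a b
          rw [← map_mul]; rfl }
    have hFG : F = G := by
      apply MonoidHom.pi_ext
      intro ω b
      change gK k * P (Pi.mulSingle ω b) * gK k⁻¹ = P (fun x => (Pi.mulSingle ω b : K → B) (k⁻¹ * x))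
      have h1 : (fun x => (Pi.mulSingle ω b : K → B) (k⁻¹ * x)) = Pi.mulSingle (k * ω) b := by
        funext x
        by_cases h : x = k * ω
        · subst h; simp
        · rw [Pi.mulSingle_eq_of_ne h, Pi.mulSingle_eq_of_ne]
          intro h2
          apply h
          rw [← h2]; simp
      rw [h1, hP, hP, hgI, mul_assoc, hkk, mul_one]
    exact congrArg (fun f => f b) hFG
  have hgP' : ∀ (k : K) (b : K → B), gK k * P b = P (fun x => b (k⁻¹ * x)) * gK k := by
    intro k b
    have h1 : gK (k⁻¹ * k) = 1 := by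
      rw [inv_mul_cancel]
      simp [gK, MonoidAlgebra.one_def]
    rw [← hgP, mul_assoc, mul_assoc, ← hgK, h1, mul_one]
  let Ψ : (B ≀ᵣ K) →* MonoidAlgebra ℤ (B' ≀ᵣ K) :=
    { toFun := fun w => P w.left * gK w.right
      map_one' := by
        simp [gK, MonoidAlgebra.one_def]
      map_mul' := by
        intro a b
        rw [RegularWreathProduct.mul_left, RegularWreathProduct.mul_right, map_mul, hgK]
        calc P a.left * P (fun x => b.left (a.right⁻¹ * x)) * (gK a.right * gK b.right)
            = P a.left * (P (fun x => b.left (a.right⁻¹ * x)) * gK a.right) * gK b.right := by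
              simp only [mul_assoc]
          _ = P a.left * gK a.right * (P b.left * gK b.right) := by
              rw [← hgP']; simp only [mul_assoc] }
  refine ⟨Ψ, ?_⟩
  set S := Subring.closure (Set.range Ψ) with hS
  have hK : ∀ k, gK k ∈ S := by
    intro k
    apply Subring.subset_closure
    refine ⟨RegularWreathProduct.inl k, ?_⟩
    change P 1 * gK k = gK k
    rw [map_one, one_mul]
  have hI : ∀ ω x, I ω x ∈ S := by
    intro ω
    apply mem_of_gen hψ
    intro b
    apply Subring.subset_closure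
    refine ⟨sg B ω b, ?_⟩
    change P (Pi.mulSingle ω b) * gK 1 = _
    rw [hP]
    simp [gK, ← MonoidAlgebra.one_def]
  apply subring_top_of_gr
  intro w
  rw [eq_bs_inl w, map_mul]
  refine S.mul_mem ?_ (hK _)
  have hsub : ∀ b : K → B', MonoidAlgebra.of ℤ (B' ≀ᵣ K) (bs B' K b) ∈ S := by
    let N : Submonoid (K → B') := S.toSubmonoid.comap ((MonoidAlgebra.of ℤ (B' ≀ᵣ K)).comp (bs B' K))
    have hN : ∀ ω (b : B'), Pi.mulSingle ω b ∈ N := by
      intro ω b
      change MonoidAlgebra.of ℤ (B' ≀ᵣ K) (bs B' K (Pi.mulSingle ω b)) ∈ S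
      rw [bs_mulSingle]
      have := hI ω (MonoidAlgebra.of ℤ B' b)
      simp only [I, map_of] at this
      exact this
    intro b
    have : b ∈ N := by
      rw [← Finset.noncommProd_mulSingle b]
      exact Submonoid.noncommProd_mem _ _ _ _ (fun i _ => hN _ _)
    exact this
  exact hsub _

end

end Pool.Agent.Helper732.HopfZG
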