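import Pool.Agent.Helper732.HopfZG.DirSum
import Pool.Agent.Helper732.HopfZG.Wreath

set_option autoImplicit false

namespace Pool.Agent.Helper732.HopfZG

open Function

/-- perfectness, in terms of homomorphisms with commuting values -/
def Pf (A : Type) [Group A] : Prop :=
  ∀ (B : Type) [Group B] (f : A →* B), (∀ x y, Commute (f x) (f y)) → ∀ x, f x = 1

/-- no nontrivial homomorphism -/
def NoHom (A B : Type) [Group A] [Group B] : Prop := ∀ (f : A →* B) (x : A), f x = 1

lemma inc_conj {W : ℕ → Type} [∀ n, Group (W n)] (g : DS W) (j : ℕ) (x : W j) :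
    g * inc j x * g⁻¹ = inc j (g.1 j * x * (g.1 j)⁻¹) := by
  apply Subtype.ext
  funext i
  change g.1 i * (inc j x : DS W).1 i * (g.1 i)⁻¹ = (inc j (g.1 j * x * (g.1 j)⁻¹) : DS W).1 i
  by_cases h : i = j
  · subst h; rw [inc_same, inc_same]
  · rw [inc_ne h, inc_ne h]; group

lemma center_trivial {K : Type} [Group K] [IsSimpleGroup K] (hKc : ∃ a b : K, a * b ≠ b * a)
    {z : K} (hz : ∀ a, z * a = a * z) : z = 1 := by
  have h1 : z ∈ Subgroup.center K := Subgroup.mem_center_iff.2 (fun a => (hz a).symm)
  rcases (inferInstance : (Subgroup.center K).Normal).eq_bot_or_eq_top with h | h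
  · rw [h] at h1; exact Subgroup.mem_bot.1 h1
  · exfalso
    obtain ⟨a, b, hab⟩ := hKc
    have : b ∈ Subgroup.center K := by rw [h]; trivial
    exact hab (Subgroup.mem_center_iff.1 this a)

theorem lemmaA {W : ℕ → Type} [∀ n, Group (W n)] (hW : ∀ n, Pf (W n)) {Q K : Type} [Group Q]
    [Group K] [IsSimpleGroup K] (hKc : ∃ a b : K, a * b ≠ b * a)
    (F : DS W →* (Q ≀ᵣ K)) (hF : Surjective F) :
    ∃ j, Surjective (fun x => F (inc j x)) ∧ ∀ l, l ≠ j → ∀ x, F (inc l x) = 1 := by
  classical
  -- step 1
  have h1 : ∃ j, ∃ x, (F (inc j x)).right ≠ 1 := by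
    by_contra hcon
    push Not at hcon
    have h2 : (RegularWreathProduct.rightHom.comp F : DS W →* K) = 1 := by
      apply DS_ext
      intro i w
      exact hcon i w
    obtain ⟨k, hk⟩ := exists_ne (1 : K)
    obtain ⟨g, hg⟩ := hF (RegularWreathProduct.inl k)
    apply hk
    have h3 := congrArg (fun f => f g) h2
    simpa [hg] using h3
  obtain ⟨j, y, hy⟩ := h1
  -- step 2
  have h2 : ∀ k : K, ∃ x, (F (inc j x)).right = k := by
    let H : W j →* K := (RegularWreathProduct.rightHom.comp F).comp (inc j)
    have hH : ∀ x, H x = (F (inc j x)).right := fun x => rfl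
    have hn : H.range.Normal := by
      constructor
      rintro _ ⟨x, rfl⟩ κ
      obtain ⟨g, hg⟩ := hF (RegularWreathProduct.inl κ)
      refine ⟨g.1 j * x * (g.1 j)⁻¹, ?_⟩
      rw [hH, ← inc_conj, map_mul, map_mul, map_inv, hg]
      simp [hH]
    have hne : H.range ≠ ⊥ := by
      intro hb
      apply hy
      have : H y ∈ H.range := ⟨y, rfl⟩
      rw [hb] at this
      exact Subgroup.mem_bot.1 this
    have htop := hn.eq_bot_or_eq_top.resolve_left hne
    intro k
    have : k ∈ H.range := by rw [htop]; trivial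
    exact this
  -- step 3
  have h3 : ∀ l, l ≠ j → ∀ x, (F (inc l x)).right = 1 := by
    intro l hl x
    apply center_trivial hKc
    intro a
    obtain ⟨x', hx'⟩ := h2 a
    have h4 := ((inc_commute hl x x').map F).eq
    have h5 := congrArg RegularWreathProduct.right h4
    simpa [hx'] using h5
  -- step 4
  have h4 : ∀ l, l ≠ j → ∀ x ω (c : Q), (F (inc l x)).left ω * c = c * (F (inc l x)).left ω := by
    intro l hl x ω c
    set m := F (inc l x) with hm
    have hmr : m.right = 1 := h3 l hl x
    set n := F (inc j y) with hn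
    set t : Q ≀ᵣ K := sg Q ω c with ht
    obtain ⟨g, hg⟩ := hF t
    have hc1 : Commute m n := (inc_commute hl x y).map F
    have hc2 : Commute m (t * n * t⁻¹) := by
      have : t * n * t⁻¹ = F (inc j (g.1 j * y * (g.1 j)⁻¹)) := by
        rw [← inc_conj, map_mul, map_mul, map_inv, hg]
      rw [this]
      exact (inc_commute hl _ _).map F
    have hc3 : Commute m (t * n * t⁻¹ * n⁻¹) := hc2.mul_right hc1.inv_right
    set z := t * n * t⁻¹ * n⁻¹ with hz
    have hzl : z.left ω = c := by
      have htr : t.right = 1 := rfl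
      have htl : t.left = Pi.mulSingle ω c := rfl
      have hne : n.right⁻¹ * ω ≠ ω := by
        intro h
        apply hy
        have h5 : n.right⁻¹ = 1 := by
          have := congrArg (fun q => q * ω⁻¹) h
          simpa using this
        exact inv_eq_one.1 h5
      simp only [hz, RegularWreathProduct.mul_left, RegularWreathProduct.mul_right, Pi.mul_apply,
        RegularWreathProduct.inv_left, RegularWreathProduct.inv_right, htr, htl, Pi.inv_apply,
        one_mul, mul_one, inv_one]
      rw [Pi.mulSingle_eq_same, Pi.mulSingle_eq_of_ne hne]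
      simp
    have h6 := congrArg (fun w : Q ≀ᵣ K => w.left ω) hc3.eq
    simp only [RegularWreathProduct.mul_left, Pi.mul_apply] at h6
    have hzr : z.right = 1 := by
      have htr : t.right = 1 := rfl
      simp [hz, htr]
    rw [hmr, hzr, inv_one, one_mul, hzl] at h6
    exact h6
  -- step 5
  have h5 : ∀ l, l ≠ j → ∀ x, F (inc l x) = 1 := by
    intro l hl
    apply hW l _ (F.comp (inc l))
    intro x x'
    change F (inc l x) * F (inc l x') = F (inc l x') * F (inc l x)
    ext ω
    · rw [RegularWreathProduct.mul_left, RegularWreathProduct.mul_left, h3 l hl x, h3 l hl x']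
      simp only [Pi.mul_apply, inv_one, one_mul]
      exact h4 l hl x ω _
    · rw [RegularWreathProduct.mul_right, RegularWreathProduct.mul_right, h3 l hl x, h3 l hl x']
  refine ⟨j, ?_, h5⟩
  intro w
  obtain ⟨g, hg⟩ := hF w
  refine ⟨g.1 j, ?_⟩
  let pj : DS W →* W j := (Pi.evalMonoidHom W j).comp (DS W).subtype
  have h6 : F = (F.comp (inc j)).comp pj := by
    apply DS_ext
    intro i w
    by_cases h : i = j
    · subst h
      change _ = F (inc i ((inc i w : DS W).1 i))
      rw [inc_same]
    · change _ = F (inc j ((inc i w : DS W).1 j))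
      rw [inc_ne (Ne.symm h), map_one, map_one]
      exact h5 i h w
  have h7 := congrArg (fun f => f g) h6
  change F g = F (inc j (g.1 j)) at h7
  change F (inc j (g.1 j)) = w
  rw [← h7, hg]

theorem lemmaB {Q Q' K : Type} [Group Q] [Group Q'] [Group K] [Finite K]
    (hQK : NoHom (K → Q) K) (f : (Q ≀ᵣ K) →* (Q' ≀ᵣ K)) (hf : Surjective f) :
    ∃ fb : (K → Q) →* (K → Q'), Surjective fb ∧ (Injective fb → Injective f) := by
  have h1 : ∀ q, (f (bs Q K q)).right = 1 :=
    fun q => hQK ((RegularWreathProduct.rightHom.comp f).comp (bs Q K)) q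
  let fb : (K → Q) →* (K → Q') :=
    { toFun := fun q => (f (bs Q K q)).left
      map_one' := by rw [map_one, map_one]; rfl
      map_mul' := by
        intro a b
        rw [map_mul, map_mul, RegularWreathProduct.mul_left, h1 a]
        simp }
  have hfb : ∀ q, f (bs Q K q) = bs Q' K (fb q) := by
    intro q
    ext ω
    · rfl
    · rw [h1]; rfl
  let κ : K →* K := (RegularWreathProduct.rightHom.comp f).comp RegularWreathProduct.inl
  have hr : ∀ w : Q ≀ᵣ K, (f w).right = κ w.right := by
    intro w
    conv_lhs => rw [eq_bs_inl w]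
    rw [map_mul, RegularWreathProduct.mul_right, h1, one_mul]
    rfl
  have hκ : Surjective κ := by
    intro k
    obtain ⟨w, hw⟩ := hf (RegularWreathProduct.inl k)
    refine ⟨w.right, ?_⟩
    rw [← hr, hw]
    rfl
  have hκ' : Injective κ := Finite.injective_iff_surjective.2 hκ
  have hbase : ∀ w : Q ≀ᵣ K, (f w).right = 1 → w = bs Q K w.left := by
    intro w hw
    rw [hr] at hw
    have : w.right = 1 := hκ' (by rw [hw, map_one])
    ext ω
    · rfl
    · exact this
  refine ⟨fb, ?_, ?_⟩
  · intro q'
    obtain ⟨w, hw⟩ := hf (bs Q' K q')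
    refine ⟨w.left, ?_⟩
    have h2 := hbase w (by rw [hw]; rfl)
    rw [h2, hfb] at hw
    exact congrArg RegularWreathProduct.left hw
  · intro hinj
    rw [injective_iff_map_eq_one]
    intro w hw
    have h2 := hbase w (by rw [hw]; rfl)
    rw [h2, hfb] at hw
    have h3 : fb w.left = 1 := congrArg RegularWreathProduct.left hw
    have h4 := (injective_iff_map_eq_one fb).1 hinj _ h3
    rw [h2, h4, map_one]

end Pool.Agent.Helper732.HopfZG
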