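import Mathlib

set_option autoImplicit false

namespace Pool.Agent.Helper732.HopfZG

section RingIdentities

variable {R : Type*} [Ring R] {Γ : Type*} [Group Γ] (e : Γ →* R)

/-- the symmetric element `e a + e a⁻¹` -/
def sy (a : Γ) : R := e a + e a⁻¹

lemma sy_inv (a : Γ) : sy e a⁻¹ = sy e a := by
  simp [sy, add_comm]

lemma sy_mul (a b : Γ) :
    sy e a * sy e b = e (a * b) + e (a * b⁻¹) + e (a⁻¹ * b) + e (a⁻¹ * b⁻¹) := by
  simp only [sy, mul_add, add_mul, map_mul]; abel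

lemma T2_id (a b : Γ) (ha : a ^ 5 = 1) :
    sy e (a⁻¹ * b) + sy e (b * a) =
      (sy e b + sy e (a ^ 2 * b * a ^ 3) + sy e (a ^ 4 * b * a)) * sy e a
        - sy e a * (sy e (a * b * a ^ 4) + sy e (a ^ 3 * b * a ^ 2)) := by
  have h1 : a⁻¹ = a ^ 4 := by
    rw [inv_eq_iff_mul_eq_one, ← pow_succ']; exact ha
  have h2 : ∀ c : Γ, (a ^ 2 * c * a ^ 3)⁻¹ = a ^ 2 * c⁻¹ * a ^ 3 := by
    intro c
    have h3 : (a ^ 3)⁻¹ = a ^ 2 := by rw [inv_eq_iff_mul_eq_one, ← pow_add]; exact ha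
    have h4 : (a ^ 2)⁻¹ = a ^ 3 := by rw [inv_eq_iff_mul_eq_one, ← pow_add]; exact ha
    rw [mul_inv_rev, mul_inv_rev, h3, h4, mul_assoc]
  have h3 : ∀ c : Γ, (a ^ 4 * c * a)⁻¹ = a ^ 4 * c⁻¹ * a := by
    intro c
    have h4 : (a ^ 4)⁻¹ = a := by rw [inv_eq_iff_mul_eq_one, ← pow_succ]; exact ha
    rw [mul_inv_rev, mul_inv_rev, h1, h4, mul_assoc]
  have h4 : ∀ c : Γ, (a * c * a ^ 4)⁻¹ = a * c⁻¹ * a ^ 4 := by
    intro c
    have h4 : (a ^ 4)⁻¹ = a := by rw [inv_eq_iff_mul_eq_one, ← pow_succ]; exact ha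
    rw [mul_inv_rev, mul_inv_rev, h1, h4, mul_assoc]
  have h5 : ∀ c : Γ, (a ^ 3 * c * a ^ 2)⁻¹ = a ^ 3 * c⁻¹ * a ^ 2 := by
    intro c
    have h3 : (a ^ 3)⁻¹ = a ^ 2 := by rw [inv_eq_iff_mul_eq_one, ← pow_add]; exact ha
    have h4 : (a ^ 2)⁻¹ = a ^ 3 := by rw [inv_eq_iff_mul_eq_one, ← pow_add]; exact ha
    rw [mul_inv_rev, mul_inv_rev, h3, h4, mul_assoc]
  simp only [sy, h2, h3, h4, h5, mul_inv_rev, inv_inv, map_mul, map_pow]
  rw [h1, map_pow]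
  have hx : (e a) ^ 5 = 1 := by rw [← map_pow, ha, map_one]
  generalize e a = x at hx ⊢
  generalize e b = y
  generalize e b⁻¹ = y'
  have hx7 : x ^ 7 = x ^ 2 := by rw [show 7 = 5 + 2 from rfl, pow_add, hx, one_mul]
  have hR : (y + y' + (x ^ 2 * y * x ^ 3 + x ^ 2 * y' * x ^ 3) + (x ^ 4 * y * x + x ^ 4 * y' * x)) *
        (x + x ^ 4) - (x + x ^ 4) * (x * y * x ^ 4 + x * y' * x ^ 4 +
          (x ^ 3 * y * x ^ 2 + x ^ 3 * y' * x ^ 2))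
      = (y + y') * x + (y + y') * x ^ 4 + (x ^ 2 * (y + y') * x ^ 4 + x ^ 2 * (y + y') * x ^ 7)
        + (x ^ 4 * (y + y') * x ^ 2 + x ^ 4 * (y + y') * x ^ 5)
        - (x ^ 2 * (y + y') * x ^ 4 + x ^ 5 * (y + y') * x ^ 4 + x ^ 4 * (y + y') * x ^ 2
            + x ^ 7 * (y + y') * x ^ 2) := by noncomm_ring
  rw [hR, hx, hx7]
  noncomm_ring

/-- squares of the units `sy a - 1` -/
lemma sq_id (a : Γ) : (sy e a - 1) * (sy e a - 1) = sy e (a ^ 2) - 2 * sy e a + 3 := by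
  have h1 : e a * e a⁻¹ = 1 := by rw [← map_mul]; simp
  have h2 : e a⁻¹ * e a = 1 := by rw [← map_mul]; simp
  have h3 : e (a ^ 2) = e a * e a := by rw [← map_mul, sq]
  have h4 : e (a ^ 2)⁻¹ = e a⁻¹ * e a⁻¹ := by rw [← map_mul, sq, mul_inv_rev]
  simp only [sy, h3, h4]
  generalize e a = x at *
  generalize e a⁻¹ = y at *
  have : (x + y - 1) * (x + y - 1) = x * x + y * y + x * y + y * x - 2 * (x + y) + 1 := by
    noncomm_ring
  rw [this, h1, h2, show (3 : R) = 1 + 1 + 1 by norm_num]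
  noncomm_ring

end RingIdentities

section EvenPart

variable {R : Type*} [Ring R] {Γ : Type*} [Group Γ] (e : Γ →* R) (E : Subring R)

/-- the even hypothesis -/
def EvenHyp : Prop := ∀ a b : Γ, a ^ 5 = 1 → a ≠ 1 → b ^ 5 = 1 → b ≠ 1 →
     (sy e a - 1) * (sy e b - 1) ∈ E

variable {e E}

lemma EvenHyp.three (h : EvenHyp e E) {a : Γ} (ha : a ^ 5 = 1) (ha1 : a ≠ 1) :
    3 * sy e a ∈ E := by
  have ha2 : (a ^ 2) ^ 5 = 1 := by rw [← pow_mul, mul_comm, pow_mul, ha, one_pow]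
  have ha21 : a ^ 2 ≠ 1 := by
    intro h2
    apply ha1
    have : a = a ^ 5 * ((a ^ 2) ^ 2)⁻¹ := by
      rw [← pow_mul]; rw [← pow_sub a (by norm_num : 2 * 2 ≤ 5)]; simp
    rw [this, ha, h2]; simp
  have e1 := h a a ha ha1 ha ha1
  have e2 := h _ _ ha2 ha21 ha2 ha21
  rw [sq_id] at e1 e2
  have e3 : sy e ((a ^ 2) ^ 2) = sy e a := by
    rw [← sy_inv e a]
    congr 1
    rw [← pow_mul, eq_comm, inv_eq_iff_mul_eq_one, ← pow_succ']; exact ha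
  rw [e3] at e2
  have h9 : (9 : R) ∈ E := by exact_mod_cast natCast_mem E 9
  have := E.sub_mem h9 (E.add_mem (E.add_mem e1 e1) e2)
  convert this using 1
  rw [show (9 : R) = 3 + 3 + 3 by norm_num]
  noncomm_ring

lemma EvenHyp.dbl (h : EvenHyp e E) {a : Γ} (ha : a ^ 5 = 1) (ha1 : a ≠ 1) :
    sy e a + sy e (a ^ 2) ∈ E := by
  have ha2 : (a ^ 2) ^ 5 = 1 := by rw [← pow_mul, mul_comm, pow_mul, ha, one_pow]
  have ha21 : a ^ 2 ≠ 1 := by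
    intro h2
    apply ha1
    have : a = a ^ 5 * ((a ^ 2) ^ 2)⁻¹ := by
      rw [← pow_mul]; rw [← pow_sub a (by norm_num : 2 * 2 ≤ 5)]; simp
    rw [this, ha, h2]; simp
  have e1 := h a a ha ha1 ha ha1
  have e2 := h _ _ ha2 ha21 ha2 ha21
  rw [sq_id] at e1 e2
  have e3 : sy e ((a ^ 2) ^ 2) = sy e a := by
    rw [← sy_inv e a]
    congr 1
    rw [← pow_mul, eq_comm, inv_eq_iff_mul_eq_one, ← pow_succ']; exact ha
  rw [e3] at e2
  have h9 : (6 : R) ∈ E := by exact_mod_cast natCast_mem E 6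
  have := E.sub_mem h9 (E.add_mem e1 e2)
  convert this using 1
  rw [show (6 : R) = 3 + 3 by norm_num]
  noncomm_ring

lemma EvenHyp.K (h : EvenHyp e E) {a b : Γ} (ha : a ^ 5 = 1) (ha1 : a ≠ 1)
    (hb : b ^ 5 = 1) (hb1 : b ≠ 1) :
    sy e (a⁻¹ * b) + sy e (b * a) - (sy e a + sy e b + sy e (a ^ 2 * b * a ^ 3)
      + sy e (a ^ 4 * b * a) - sy e (a * b * a ^ 4) - sy e (a ^ 3 * b * a ^ 2)) ∈ E := by
  have conj5 : ∀ i j : ℕ, i + j = 5 → (a ^ i * b * a ^ j) ^ 5 = 1 ∧ a ^ i * b * a ^ j ≠ 1 := by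
    intro i j hij
    have hj : a ^ j = (a ^ i)⁻¹ := by
      rw [eq_comm, inv_eq_iff_mul_eq_one, ← pow_add, hij, ha]
    rw [hj]
    refine ⟨by rw [conj_pow, hb]; simp, ?_⟩
    intro hh
    apply hb1
    have : b = (a ^ i)⁻¹ * (a ^ i * b * (a ^ i)⁻¹) * a ^ i := by group
    rw [this, hh]; simp
  have g2 := conj5 2 3 rfl
  have g4 := conj5 4 1 rfl
  have g1 := conj5 1 4 rfl
  have g3 := conj5 3 2 rfl
  rw [pow_one] at g1 g4
  have k0 := h b a hb hb1 ha ha1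
  have k2 := h _ a g2.1 g2.2 ha ha1
  have k4 := h _ a g4.1 g4.2 ha ha1
  have k1 := h a _ ha ha1 g1.1 g1.2
  have k3 := h a _ ha ha1 g3.1 g3.2
  rw [T2_id e a b ha]
  have := E.add_mem (E.sub_mem (E.add_mem (E.add_mem k0 k2) k4) (E.add_mem k1 k3)) (neg_mem (one_mem E))
  convert this using 1
  noncomm_ring

end EvenPart

end Pool.Agent.Helper732.HopfZG
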