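import Pool.Agent.Helper732.HopfZG.SixMain

set_option autoImplicit false

namespace Pool.Agent.Helper732.HopfZG

lemma sy_unit {R : Type*} [Ring R] {Γ : Type*} [Group Γ] (e : Γ →* R) {a : Γ} (ha : a ^ 5 = 1) :
    (sy e a - 1) * (sy e (a ^ 2) - 1) = 1 ∧ (sy e (a ^ 2) - 1) * (sy e a - 1) = 1 := by
  have h1 : a⁻¹ = a ^ 4 := by
    rw [inv_eq_iff_mul_eq_one, ← pow_succ']; exact ha
  have h2 : (a ^ 2)⁻¹ = a ^ 3 := by rw [inv_eq_iff_mul_eq_one, ← pow_add]; exact ha
  simp only [sy, h1, h2, map_pow]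
  have hx : (e a) ^ 5 = 1 := by rw [← map_pow, ha, map_one]
  generalize e a = x at hx ⊢
  have hx6 : x ^ 6 = x := by rw [show 6 = 5 + 1 from rfl, pow_add, hx, one_mul, pow_one]
  have hx7 : x ^ 7 = x ^ 2 := by rw [show 7 = 5 + 2 from rfl, pow_add, hx, one_mul]
  have hx3 : x * x ^ 3 = x ^ 4 := by rw [← pow_succ']
  have hx3' : x ^ 3 * x = x ^ 4 := by rw [← pow_succ]
  have hx2 : x * x ^ 2 = x ^ 3 := by rw [← pow_succ']
  have hx2' : x ^ 2 * x = x ^ 3 := by rw [← pow_succ]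
  have h42 : x ^ 4 * x ^ 2 = x := by rw [← pow_add, hx6]
  have h43 : x ^ 4 * x ^ 3 = x ^ 2 := by rw [← pow_add, hx7]
  have h24 : x ^ 2 * x ^ 4 = x := by rw [← pow_add, hx6]
  have h34 : x ^ 3 * x ^ 4 = x ^ 2 := by rw [← pow_add, hx7]
  constructor
  · simp only [mul_sub, sub_mul, mul_add, add_mul, mul_one, one_mul, hx2, hx3, h42, h43]
    abel
  · simp only [mul_sub, sub_mul, mul_add, add_mul, mul_one, one_mul, hx2', hx3', h24, h34]
    abel

variable {T : Type} [Group T]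

/-- group elements in the integral group ring -/
noncomputable abbrev gr (T : Type) [Group T] : T →* MonoidAlgebra ℤ T := MonoidAlgebra.of ℤ T

/-- the unit `c + c⁻¹ - 1` -/
noncomputable def uT (c : T) (hc : c ^ 5 = 1) : (MonoidAlgebra ℤ T)ˣ where
  val := sy (gr T) c - 1
  inv := sy (gr T) (c ^ 2) - 1
  val_inv := (sy_unit (gr T) hc).1
  inv_val := (sy_unit (gr T) hc).2

/-- embedding in the second factor -/
noncomputable def jR (T : Type) [Group T] : MonoidAlgebra ℤ T →+* MonoidAlgebra ℤ (T × T) :=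
  MonoidAlgebra.mapDomainRingHom ℤ (MonoidHom.inr T T)

@[simp] lemma jR_gr (t : T) : jR T (gr T t) = gr (T × T) (1, t) := by
  simp [jR, MonoidAlgebra.of_apply]

/-- the unit `v` -/
noncomputable def vU (c : T) (hc : c ^ 5 = 1) : (MonoidAlgebra ℤ (T × T))ˣ :=
  Units.map (jR T : MonoidAlgebra ℤ T →* MonoidAlgebra ℤ (T × T)) (uT c hc)

/-- the diagonal map to units -/
noncomputable def io1 (T : Type) [Group T] : T →* (MonoidAlgebra ℤ (T × T))ˣ :=
  ((gr (T × T)).comp ((MonoidHom.id T).prod (MonoidHom.id T))).toHomUnits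

@[simp] lemma io1_val (t : T) : ((io1 T t : (MonoidAlgebra ℤ (T × T))ˣ) : MonoidAlgebra ℤ (T × T))
    = gr (T × T) (t, t) := rfl

/-- the second copy -/
noncomputable def io2 (c : T) (hc : c ^ 5 = 1) : T →* (MonoidAlgebra ℤ (T × T))ˣ :=
  (MulAut.conj (vU c hc)).toMonoidHom.comp (io1 T)

lemma io2_apply (c : T) (hc : c ^ 5 = 1) (t : T) :
    io2 c hc t = vU c hc * io1 T t * (vU c hc)⁻¹ := rfl

/-- the group `Y` -/
noncomputable def YY (c : T) (hc : c ^ 5 = 1) : Subgroup (MonoidAlgebra ℤ (T × T))ˣ :=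
  (io1 T).range ⊔ (io2 c hc).range

/-- the ring spanned by `Y` -/
noncomputable def CY (c : T) (hc : c ^ 5 = 1) : Subring (MonoidAlgebra ℤ (T × T)) :=
  Subring.closure (Set.range (fun y : YY c hc => ((y : (MonoidAlgebra ℤ (T × T))ˣ) :
    MonoidAlgebra ℤ (T × T))))

lemma mem_CY {c : T} {hc : c ^ 5 = 1} {y : (MonoidAlgebra ℤ (T × T))ˣ} (hy : y ∈ YY c hc) :
    (y : MonoidAlgebra ℤ (T × T)) ∈ CY c hc :=
  Subring.subset_closure ⟨⟨y, hy⟩, rfl⟩

lemma io1_mem (c : T) (hc : c ^ 5 = 1) (t : T) : io1 T t ∈ YY c hc :=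
  Subgroup.mem_sup_left ⟨t, rfl⟩

lemma io2_mem (c : T) (hc : c ^ 5 = 1) (t : T) : io2 c hc t ∈ YY c hc :=
  Subgroup.mem_sup_right ⟨t, rfl⟩

lemma comm_left (t : T) (x : MonoidAlgebra ℤ T) :
    Commute (gr (T × T) (t, 1)) (jR T x) := by
  induction x using MonoidAlgebra.induction_on with
  | of m =>
    rw [jR_gr]
    change _ * _ = _ * _
    rw [← map_mul, ← map_mul]; simp
  | add x y hx hy => rw [map_add]; exact hx.add_right hy
  | smul r x hx => rw [map_zsmul]; exact hx.smul_right r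

/-- the ring `E` -/
noncomputable def EE (c : T) (hc : c ^ 5 = 1) : Subring (MonoidAlgebra ℤ T) :=
  (CY c hc).comap (jR T)

lemma gr_split (t : T) : gr (T × T) (t, t) = gr (T × T) (1, t) * gr (T × T) (t, 1) := by
  rw [← map_mul]; simp

lemma jR_conj (t : T) (x : MonoidAlgebra ℤ T) :
    gr (T × T) (t, t) * jR T x * gr (T × T) (t⁻¹, t⁻¹) = jR T (gr T t * x * gr T t⁻¹) := by
  rw [map_mul, map_mul, jR_gr, jR_gr, gr_split, gr_split]
  have h := (comm_left t x).eq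
  calc gr (T × T) (1, t) * gr (T × T) (t, 1) * jR T x *
        (gr (T × T) (1, t⁻¹) * gr (T × T) (t⁻¹, 1))
      = gr (T × T) (1, t) * ((gr (T × T) (t, 1) * jR T x) * (gr (T × T) (1, t⁻¹) * gr (T × T) (t⁻¹, 1))) := by
        simp only [mul_assoc]
    _ = gr (T × T) (1, t) * ((jR T x * gr (T × T) (t, 1)) * (gr (T × T) (1, t⁻¹) * gr (T × T) (t⁻¹, 1))) := by
        rw [h]
    _ = gr (T × T) (1, t) * jR T x * (gr (T × T) (t, 1) * gr (T × T) (1, t⁻¹) * gr (T × T) (t⁻¹, 1)) := by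
        simp only [mul_assoc]
    _ = gr (T × T) (1, t) * jR T x * gr (T × T) (1, t⁻¹) := by
        congr 1
        rw [← map_mul, ← map_mul]; simp

lemma EE_conj {c : T} {hc : c ^ 5 = 1} {x : MonoidAlgebra ℤ T} (hx : x ∈ EE c hc) (t : T) :
    gr T t * x * gr T t⁻¹ ∈ EE c hc := by
  change jR T _ ∈ CY c hc
  rw [← jR_conj]
  refine (CY c hc).mul_mem ((CY c hc).mul_mem ?_ hx) ?_
  · exact mem_CY (io1_mem c hc t)
  · exact mem_CY (io1_mem c hc t⁻¹)

lemma gr_sy_conj (t a : T) : gr T t * (sy (gr T) a - 1) * gr T t⁻¹ = sy (gr T) (t * a * t⁻¹) - 1 := by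
  have h1 : gr T t * gr T t⁻¹ = 1 := by rw [← map_mul, mul_inv_cancel, map_one]
  have h2 : (t * a * t⁻¹)⁻¹ = t * a⁻¹ * t⁻¹ := by group
  simp only [sy, h2, map_mul, mul_sub, sub_mul, mul_add, add_mul, mul_one, h1]

lemma EE_prod1 {c : T} (hc : c ^ 5 = 1) (t : T) :
    (sy (gr T) (t * c * t⁻¹) - 1) * (sy (gr T) (c ^ 2) - 1) ∈ EE c hc := by
  change jR T _ ∈ CY c hc
  have h : (((io1 T t⁻¹)⁻¹ * io2 c hc t⁻¹ : (MonoidAlgebra ℤ (T × T))ˣ) : MonoidAlgebra ℤ (T × T)) =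
      jR T ((sy (gr T) (t * c * t⁻¹) - 1) * (sy (gr T) (c ^ 2) - 1)) := by
    rw [io2_apply, ← map_inv, inv_inv]
    rw [Units.val_mul, Units.val_mul, Units.val_mul, io1_val, io1_val, map_mul, ← gr_sy_conj,
      ← jR_conj]
    simp only [mul_assoc]
    rfl
  rw [← h]
  exact mem_CY ((YY c hc).mul_mem ((YY c hc).inv_mem (io1_mem c hc t⁻¹)) (io2_mem c hc t⁻¹))

lemma EE_prod2 {c : T} (hc : c ^ 5 = 1) (t : T) :
    (sy (gr T) c - 1) * (sy (gr T) (t * c ^ 2 * t⁻¹) - 1) ∈ EE c hc := by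
  change jR T _ ∈ CY c hc
  have h : (((io2 c hc t) * (io1 T t)⁻¹ : (MonoidAlgebra ℤ (T × T))ˣ) : MonoidAlgebra ℤ (T × T)) =
      jR T ((sy (gr T) c - 1) * (sy (gr T) (t * c ^ 2 * t⁻¹) - 1)) := by
    rw [io2_apply, ← map_inv]
    rw [Units.val_mul, Units.val_mul, Units.val_mul, io1_val, io1_val, map_mul, ← gr_sy_conj,
      ← jR_conj]
    simp only [mul_assoc]
    rfl
  rw [← h]
  exact mem_CY ((YY c hc).mul_mem (io2_mem c hc t) ((YY c hc).inv_mem (io1_mem c hc t)))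

lemma EE_prod {c : T} (hc : c ^ 5 = 1) (hc3 : IsConj c (c ^ 3)) {a b : T} (ha : IsConj c a)
    (hb : IsConj c b) : (sy (gr T) a - 1) * (sy (gr T) b - 1) ∈ EE c hc := by
  obtain ⟨t, rfl⟩ := isConj_iff.1 ha
  obtain ⟨s, rfl⟩ := isConj_iff.1 hb
  obtain ⟨r, hr⟩ := isConj_iff.1 hc3
  have h1 := EE_prod1 hc t
  have h2 := EE_prod2 hc (s * r)
  have h3 : s * r * c ^ 2 * (s * r)⁻¹ = s * c * s⁻¹ := by
    have : (r * c * r⁻¹) ^ 2 = c := by
      rw [hr, ← pow_mul]
      calc c ^ (3 * 2) = c ^ 5 * c := by rw [← pow_succ]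
        _ = c := by rw [hc, one_mul]
    rw [conj_pow] at this
    calc s * r * c ^ 2 * (s * r)⁻¹ = s * (r * c ^ 2 * r⁻¹) * s⁻¹ := by group
      _ = _ := by rw [this]
  rw [h3] at h2
  have h4 := (EE c hc).mul_mem h1 h2
  convert h4 using 1
  have h5 := (sy_unit (gr T) hc).2
  generalize sy (gr T) (t * c * t⁻¹) - 1 = X at *
  generalize sy (gr T) (s * c * s⁻¹) - 1 = Y at *
  generalize sy (gr T) (c ^ 2) - 1 = P at *
  generalize sy (gr T) c - 1 = Q at *
  calc X * Y = X * 1 * Y := by rw [mul_one]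
    _ = X * (P * Q) * Y := by rw [h5]
    _ = X * P * (Q * Y) := by simp only [mul_assoc]

theorem EE_eq_top {c : T} (hc : c ^ 5 = 1) (hc3 : IsConj c (c ^ 3)) [IsSimpleGroup T]
    (j : alternatingGroup (Fin 6) →* T)
    (hj : ∀ a, a ^ 5 = 1 → a ≠ 1 → IsConj c (j a))
    (hjne : j Six.c053c124 ≠ 1) : EE c hc = ⊤ := by
  have hev : EvenHyp ((gr T).comp j) (EE c hc) := by
    intro a b ha ha1 hb hb1
    have := EE_prod hc hc3 (hj a ha ha1) (hj b hb hb1)
    simpa [sy] using this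
  have h1 : sy (gr T) (j Six.c01234) ∈ EE c hc := by
    have := Six.even_c hev
    simpa [sy] using this
  have hfull : Six.FullHyp ((gr T).comp j) (EE c hc) := by
    intro a ha
    by_cases ha1 : a = 1
    · subst ha1
      simp only [sy, inv_one, map_one]
      exact (EE c hc).add_mem (EE c hc).one_mem (EE c hc).one_mem
    · have h2 : IsConj (j Six.c01234) (j a) :=
        ((hj Six.c01234 (by decide) (by decide)).symm).trans (hj a ha ha1)
      obtain ⟨t, ht⟩ := isConj_iff.1 h2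
      have h3 := EE_conj h1 t
      have h4 : gr T t * sy (gr T) (j Six.c01234) * gr T t⁻¹ = sy ((gr T).comp j) a := by
        have h2' : (t * j Six.c01234 * t⁻¹)⁻¹ = t * (j Six.c01234)⁻¹ * t⁻¹ := by group
        have h5 : j a⁻¹ = t * (j Six.c01234)⁻¹ * t⁻¹ := by rw [map_inv, ← ht, h2']
        simp only [sy, MonoidHom.comp_apply, h5, ← ht, map_mul, mul_add, add_mul]
      rw [← h4]; exact h3
  have h6 : gr T (j Six.c053c124) ∈ EE c hc := Six.elt_mem hfull
  let N : Subgroup T :=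
    { carrier := {t | gr T t ∈ EE c hc ∧ gr T t⁻¹ ∈ EE c hc}
      one_mem' := by
        change gr T 1 ∈ EE c hc ∧ gr T 1⁻¹ ∈ EE c hc
        simp only [inv_one, map_one]
        exact ⟨(EE c hc).one_mem, (EE c hc).one_mem⟩
      mul_mem' := by
        rintro a b ⟨ha, ha'⟩ ⟨hb, hb'⟩
        change gr T (a * b) ∈ EE c hc ∧ gr T (a * b)⁻¹ ∈ EE c hc
        simp only [mul_inv_rev, map_mul]
        exact ⟨(EE c hc).mul_mem ha hb, (EE c hc).mul_mem hb' ha'⟩
      inv_mem' := by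
        rintro a ⟨ha, ha'⟩
        exact ⟨ha', by simpa using ha⟩ }
  have hN : N.Normal := by
    constructor
    rintro a ⟨ha, ha'⟩ g
    refine ⟨?_, ?_⟩
    · have := EE_conj ha g
      simpa only [map_mul] using this
    · have := EE_conj ha' g
      rw [show (g * a * g⁻¹)⁻¹ = g * a⁻¹ * g⁻¹ by group]
      simpa only [map_mul] using this
  have h7 : j Six.c053c124 ∈ N := by
    refine ⟨h6, ?_⟩
    have h8 : (j Six.c053c124)⁻¹ = (j Six.c053c124) ^ 2 := by
      rw [← map_pow, ← map_inv]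
      congr 1
      decide
    rw [h8, map_pow]
    exact pow_mem h6 2
  have hNtop : N = ⊤ := by
    rcases hN.eq_bot_or_eq_top with h | h
    · exfalso
      rw [h] at h7
      exact hjne (Subgroup.mem_bot.1 h7)
    · exact h
  rw [eq_top_iff]
  intro x _
  induction x using MonoidAlgebra.induction_on with
  | of m =>
    have : m ∈ N := by rw [hNtop]; trivial
    exact this.1
  | add x y hx hy => exact (EE c hc).add_mem (hx trivial) (hy trivial)
  | smul r x hx => exact (EE c hc).zsmul_mem (hx trivial) r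

theorem CY_eq_top {c : T} (hc : c ^ 5 = 1) (hE : EE c hc = ⊤) : CY c hc = ⊤ := by
  rw [eq_top_iff]
  intro x _
  have h1 : ∀ t : T, gr (T × T) (1, t) ∈ CY c hc := by
    intro t
    have : gr T t ∈ EE c hc := by rw [hE]; trivial
    have h2 : jR T (gr T t) ∈ CY c hc := this
    rwa [jR_gr] at h2
  induction x using MonoidAlgebra.induction_on with
  | of m =>
    obtain ⟨a, b⟩ := m
    have h2 : gr (T × T) (a, b) = gr (T × T) (a, a) * gr (T × T) (1, a⁻¹ * b) := by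
      rw [← map_mul]; simp
    change gr (T × T) (a, b) ∈ _
    rw [h2]
    exact (CY c hc).mul_mem (mem_CY (io1_mem c hc a)) (h1 _)
  | add x y hx hy => exact (CY c hc).add_mem (hx trivial) (hy trivial)
  | smul r x hx => exact (CY c hc).zsmul_mem (hx trivial) r

end Pool.Agent.Helper732.HopfZG
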