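import Pool.Agent.Helper732.HopfZG.Tower
import Pool.Agent.Helper732.HopfZG.UnitPart

set_option autoImplicit false

namespace Pool.Agent.Helper732.HopfZG

open Function

/-! ### Residual finiteness and Hopfian property -/

theorem hopf_of_resFin {A : Type} [Group A]
    (hfin : ∀ (F : Type) [Group F] [Finite F], Finite (A →* F))
    (hres : ∀ a : A, a ≠ 1 → ∃ (F : Type) (_ : Group F) (_ : Finite F) (h : A →* F), h a ≠ 1) :
    ∀ f : A →* A, Surjective f → Injective f := by
  intro f hf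
  rw [injective_iff_map_eq_one]
  intro a ha
  by_contra hne
  obtain ⟨F, _, _, h, hh⟩ := hres a hne
  have := hfin F
  have hinj : Injective (fun g : A →* F => g.comp f) := by
    intro g g' hgg
    ext x
    obtain ⟨y, rfl⟩ := hf x
    exact congrArg (fun k => k y) hgg
  obtain ⟨g, hg⟩ := (Finite.injective_iff_surjective.1 hinj) h
  apply hh
  rw [← hg]
  change g (f a) = 1
  rw [ha, map_one]

section Mod

variable {H : Type} [Group H]

/-- reduction modulo `N` -/
noncomputable def red (H : Type) [Group H] (N : ℕ) :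
    MonoidAlgebra ℤ H →+* MonoidAlgebra (ZMod N) H :=
  MonoidAlgebra.mapRingHom H (Int.castRingHom (ZMod N))

lemma red_coeff (N : ℕ) (x : MonoidAlgebra ℤ H) (g : H) :
    (red H N x).coeff g = (x.coeff g : ZMod N) := by
  simp [red]

lemma exists_of_red_eq_zero {N : ℕ} {x : MonoidAlgebra ℤ H} (hx : red H N x = 0) :
    ∃ v : MonoidAlgebra ℤ H, x = N • v := by
  have h1 : ∀ g, (N : ℤ) ∣ x.coeff g := by
    intro g
    have := red_coeff N x g
    rw [hx] at this
    rw [← ZMod.intCast_zmod_eq_zero_iff_dvd]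
    exact this.symm
  refine ⟨MonoidAlgebra.ofCoeff (x.coeff.mapRange (fun z => z / (N : ℤ)) (by simp)), ?_⟩
  ext g
  have h2 := h1 g
  simp only [MonoidAlgebra.coeff_smul, Finsupp.smul_apply, Finsupp.mapRange_apply]
  rw [nsmul_eq_mul, Int.mul_ediv_cancel' h2]

lemma eq_zero_of_pow_dvd {w : MonoidAlgebra ℤ H}
    (h : ∀ n : ℕ, ∃ v : MonoidAlgebra ℤ H, w = (2 ^ n) • v) : w = 0 := by
  ext g
  have h1 : ∀ n : ℕ, (2 : ℤ) ^ n ∣ w.coeff g := by
    intro n
    obtain ⟨v, hv⟩ := h n
    rw [hv]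
    simp only [MonoidAlgebra.coeff_smul, Finsupp.smul_apply]
    rw [nsmul_eq_mul]
    push_cast
    exact Dvd.intro _ rfl
  by_contra hne
  have hne' : w.coeff g ≠ 0 := hne
  have h2 := Int.natAbs_dvd_natAbs.2 (h1 (w.coeff g).natAbs)
  have h3 := Nat.le_of_dvd (Int.natAbs_pos.2 hne') h2
  rw [Int.natAbs_pow] at h3
  have h4 : (w.coeff g).natAbs < 2 ^ (w.coeff g).natAbs := Nat.lt_two_pow_self
  have h5 : (2 : ℤ).natAbs = 2 := rfl
  rw [h5] at h3
  omega

/-- general ring version of the torsion argument -/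
lemma torsion_aux {R : Type*} [Ring R] {y : R} (hy : y ^ 3 = 1) {w1 : R} (hw1 : y - 1 = 2 • w1) :
    ∀ n : ℕ, ∃ v : R, y - 1 = (2 ^ (n + 1)) • v := by
  set w := y - 1 with hw
  have hyw : y = 1 + w := by rw [hw]; abel
  have h3 : 3 • w = - (w * (3 • w + w * w)) := by
    have h4 : (1 + w) ^ 3 = 1 := by rw [← hyw, hy]
    have h5 : (1 + w) ^ 3 = 1 + (3 • w + w * (3 • w + w * w)) := by
      noncomm_ring
    rw [h5] at h4
    have h6 : 3 • w + w * (3 • w + w * w) = 0 := by
      have := congrArg (fun z => z - 1) h4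
      simpa using this
    exact eq_neg_of_add_eq_zero_left h6
  intro n
  induction n with
  | zero => exact ⟨w1, by simpa using hw1⟩
  | succ n ih =>
    obtain ⟨v, hv⟩ := ih
    refine ⟨-(v * (3 • w1 + w1 * w)) - v, ?_⟩
    have h8 : 3 • w + w * w = 2 • (3 • w1 + w1 * w) := by
      have h9 : 3 • w = 2 • (3 • w1) := by
        rw [hw1, smul_comm]
      have h10 : w * w = 2 • (w1 * w) := by
        rw [← smul_mul_assoc, ← hw1]
      rw [h9, h10, smul_add]
    have h7' : ∀ z : R, w * (2 • z) = (2 ^ (n + 2)) • (v * z) := by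
      intro z
      rw [hv, smul_mul_smul_comm, ← pow_succ]
    have h7 : w * (3 • w + w * w) = (2 ^ (n + 2)) • (v * (3 • w1 + w1 * w)) := by
      rw [h8, h7']
    have h12 : w = 3 • w - 2 • w := by
      abel
    have h13 : 2 • w = (2 ^ (n + 2)) • v := by
      conv_lhs => rw [hv]
      rw [smul_smul, ← pow_succ']
    conv_lhs => rw [h12, h3, h7, h13]
    rw [smul_sub, smul_neg]

/-- an element of order 3 which is 1 mod 2 is 1 -/
lemma eq_one_of_cube {y : MonoidAlgebra ℤ H} (hy : y ^ 3 = 1) (hred : red H 2 y = 1) : y = 1 := by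
  have hz : red H 2 (y - 1) = 0 := by rw [map_sub, hred, map_one, sub_self]
  obtain ⟨w1, hw1⟩ := exists_of_red_eq_zero hz
  have key := torsion_aux hy hw1
  have hw0 : y - 1 = 0 := by
    apply eq_zero_of_pow_dvd
    intro n
    rcases n with _ | n
    · exact ⟨y - 1, by simp⟩
    · exact key n
  exact sub_eq_zero.1 hw0

end Mod

end Pool.Agent.Helper732.HopfZG
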