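import Pool.Agent.Helper732.HopfZG.Levels

set_option autoImplicit false

namespace Pool.Agent.Helper732.HopfZG

open Function

section Card

variable {H : Type} [Group H]

instance finite_MA (N : ℕ) [NeZero N] [Finite H] : Finite (MonoidAlgebra (ZMod N) H) := by
  have : Finite (H →₀ ZMod N) :=
    Finite.of_injective (fun f : H →₀ ZMod N => (f : H → ZMod N)) DFunLike.coe_injective
  exact Finite.of_equiv _ (MonoidAlgebra.coeffEquiv (R := ZMod N) (M := H)).symm

lemma card_MA_two [Finite H] : Nat.card (MonoidAlgebra (ZMod 2) H) = 2 ^ Nat.card H := by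
  classical
  have := Fintype.ofFinite H
  rw [Nat.card_congr (MonoidAlgebra.coeffEquiv (R := ZMod 2) (M := H)),
    Nat.card_congr Finsupp.equivFunOnFinite, Nat.card_fun]
  simp

/-- no homomorphisms from a large simple group to the units of a small integral group ring -/
theorem no_hom_units {T : Type} [Group T] [Finite T] [IsSimpleGroup T] [Finite H] {x : T}
    (hx : x ^ 3 = 1) (hx1 : x ≠ 1) (hcard : 2 ^ (Nat.card H) < Nat.card T)
    (f : T →* (MonoidAlgebra ℤ H)ˣ) : ∀ t, f t = 1 := by
  let g : T →* (MonoidAlgebra (ZMod 2) H)ˣ :=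
    (Units.map (red H 2 : MonoidAlgebra ℤ H →* MonoidAlgebra (ZMod 2) H)).comp f
  have hker : g.ker = ⊤ := by
    rcases (inferInstance : g.ker.Normal).eq_bot_or_eq_top with h | h
    · exfalso
      have hinj : Injective g := (MonoidHom.ker_eq_bot_iff g).1 h
      have hinj2 : Injective (fun t => ((g t : (MonoidAlgebra (ZMod 2) H)ˣ) : MonoidAlgebra (ZMod 2) H)) :=
        Units.val_injective.comp hinj
      have := Nat.card_le_card_of_injective _ hinj2
      rw [card_MA_two] at this
      omega
    · exact h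
  have h1 : f x = 1 := by
    apply Units.ext
    apply eq_one_of_cube
    · rw [← Units.val_pow_eq_pow_val, ← map_pow, hx, map_one]; rfl
    · have : x ∈ g.ker := by rw [hker]; trivial
      have h2 : g x = 1 := this
      exact congrArg Units.val h2
  have hker2 : f.ker = ⊤ := by
    rcases (inferInstance : f.ker.Normal).eq_bot_or_eq_top with h | h
    · exfalso
      have : x ∈ f.ker := h1
      rw [h] at this
      exact hx1 (Subgroup.mem_bot.1 this)
    · exact h
  intro t
  have : t ∈ f.ker := by rw [hker2]; trivial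
  exact this

end Card

section YYfacts

variable {T : Type} [Group T] (c : T) (hc : c ^ 5 = 1)

/-- first copy of `T` in `Y` -/
noncomputable def iY1 : T →* YY c hc := (io1 T).codRestrict (YY c hc) (io1_mem c hc)

/-- second copy of `T` in `Y` -/
noncomputable def iY2 : T →* YY c hc := (io2 c hc).codRestrict (YY c hc) (io2_mem c hc)

variable {c hc}

lemma YY_top (S : Subgroup (YY c hc)) (h1 : ∀ t, iY1 c hc t ∈ S) (h2 : ∀ t, iY2 c hc t ∈ S) :
    S = ⊤ := by
  have h3 : YY c hc ≤ S.map (YY c hc).subtype := by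
    apply sup_le
    · rintro _ ⟨t, rfl⟩
      exact ⟨iY1 c hc t, h1 t, rfl⟩
    · rintro _ ⟨t, rfl⟩
      exact ⟨iY2 c hc t, h2 t, rfl⟩
  rw [eq_top_iff]
  rintro ⟨y, hy⟩ _
  obtain ⟨z, hz, hzy⟩ := h3 hy
  have : z = ⟨y, hy⟩ := Subtype.ext hzy
  rw [← this]; exact hz

lemma YY_ext {F : Type} [Group F] {f g : YY c hc →* F} (h1 : ∀ t, f (iY1 c hc t) = g (iY1 c hc t))
    (h2 : ∀ t, f (iY2 c hc t) = g (iY2 c hc t)) : f = g := by
  have h3 : f.eqLocus g = ⊤ := YY_top _ h1 h2
  ext y
  have : y ∈ f.eqLocus g := by rw [h3]; trivial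
  exact this

lemma pi_top {K A : Type} [Group A] [Finite K] [DecidableEq K] (S : Subgroup (K → A))
    (h : ∀ k a, Pi.mulSingle k a ∈ S) : S = ⊤ := by
  have := Fintype.ofFinite K
  rw [eq_top_iff]
  intro b _
  rw [← Finset.noncommProd_mulSingle b]
  exact Subgroup.noncommProd_mem _ _ (fun i _ => h _ _)

lemma YY_pi_finite (K : Type) [Finite K] [Finite T] (F : Type) [Group F] [Finite F] :
    Finite ((K → YY c hc) →* F) := by
  classical
  let Ψ : ((K → YY c hc) →* F) → (K → (T → F) × (T → F)) := fun h k =>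
    (fun t => h (Pi.mulSingle k (iY1 c hc t)), fun t => h (Pi.mulSingle k (iY2 c hc t)))
  apply Finite.of_injective Ψ
  intro h h' hh
  apply MonoidHom.pi_ext
  intro k y
  have h3 : h.comp (MonoidHom.mulSingle (fun _ => YY c hc) k) =
      h'.comp (MonoidHom.mulSingle (fun _ => YY c hc) k) := by
    apply YY_ext
    · intro t
      exact congrFun (congrArg Prod.fst (congrFun hh k)) t
    · intro t
      exact congrFun (congrArg Prod.snd (congrFun hh k)) t
  exact congrArg (fun f => f y) h3

lemma YY_pi_resFin (K : Type) [Finite T] (a : K → YY c hc) (ha : a ≠ 1) :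
    ∃ (F : Type) (_ : Group F) (_ : Finite F) (h : (K → YY c hc) →* F), h a ≠ 1 := by
  have h1 : ∃ k, a k ≠ 1 := by
    by_contra hcon
    push Not at hcon
    exact ha (funext hcon)
  obtain ⟨k, hk⟩ := h1
  have h2 : ((a k : (MonoidAlgebra ℤ (T × T))ˣ) : MonoidAlgebra ℤ (T × T)) - 1 ≠ 0 := by
    intro h
    apply hk
    apply Subtype.ext
    apply Units.ext
    exact sub_eq_zero.1 h
  set x := ((a k : (MonoidAlgebra ℤ (T × T))ˣ) : MonoidAlgebra ℤ (T × T)) with hx
  have h3 : ∃ g, (x - 1).coeff g ≠ 0 := by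
    by_contra hcon
    push Not at hcon
    apply h2
    ext g
    exact hcon g
  obtain ⟨g, hg⟩ := h3
  set N := ((x - 1).coeff g).natAbs + 1 with hN
  have : NeZero N := ⟨by omega⟩
  let h : (K → YY c hc) →* (MonoidAlgebra (ZMod N) (T × T))ˣ :=
    ((Units.map (red (T × T) N : MonoidAlgebra ℤ (T × T) →* MonoidAlgebra (ZMod N) (T × T))).comp
      (YY c hc).subtype).comp (Pi.evalMonoidHom (fun _ => YY c hc) k)
  refine ⟨(MonoidAlgebra (ZMod N) (T × T))ˣ, inferInstance, inferInstance, h, ?_⟩
  intro hh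
  have h4 : red (T × T) N x = 1 := congrArg Units.val hh
  have h5 : red (T × T) N (x - 1) = 0 := by rw [map_sub, h4, map_one, sub_self]
  have h6 := red_coeff N (x - 1) g
  rw [h5] at h6
  have h7 : (N : ℤ) ∣ (x - 1).coeff g := by
    rw [← ZMod.intCast_zmod_eq_zero_iff_dvd]
    exact h6.symm
  have h8 := Int.natAbs_dvd_natAbs.2 h7
  have h9 := Nat.le_of_dvd (Int.natAbs_pos.2 hg) h8
  rw [Int.natAbs_natCast] at h9
  omega

theorem YY_hopf (K : Type) [Finite K] [Finite T] :
    ∀ f : (K → YY c hc) →* (K → YY c hc), Surjective f → Injective f := by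
  apply hopf_of_resFin
  · intro F _ _
    exact YY_pi_finite K F
  · intro a ha
    exact YY_pi_resFin K a ha

end YYfacts

end Pool.Agent.Helper732.HopfZG
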