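import Pool.Agent.Helper732.HopfZG.Levels2

set_option autoImplicit false

namespace Pool.Agent.Helper732.HopfZG

open Function

section

variable {T : Type} [Group T] {c : T} {hc : c ^ 5 = 1}

/-- rigidity of the centraliser of the unit -/
def Rigid (c : T) : Prop := ∀ α β : T →* T,
  (∀ b, (b * c = c * b ∨ b * c = c⁻¹ * b) → α b = β b) → ∀ t, α t = β t

lemma iY_agree {b : T} (hb : b * c = c * b ∨ b * c = c⁻¹ * b) : iY2 c hc b = iY1 c hc b := by
  have h1 : io1 T b * vU c hc * (io1 T b)⁻¹ = vU c hc := by
    apply Units.ext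
    rw [Units.val_mul, Units.val_mul, ← map_inv, io1_val, io1_val]
    change gr (T × T) (b, b) * jR T (sy (gr T) c - 1) * gr (T × T) (b⁻¹, b⁻¹) =
      jR T (sy (gr T) c - 1)
    rw [jR_conj, gr_sy_conj]
    rcases hb with h | h
    · rw [h, mul_inv_cancel_right]
    · rw [h, mul_inv_cancel_right, sy_inv]
  apply Subtype.ext
  change vU c hc * io1 T b * (vU c hc)⁻¹ = io1 T b
  calc vU c hc * io1 T b * (vU c hc)⁻¹
      = (io1 T b * vU c hc * (io1 T b)⁻¹) * io1 T b * (vU c hc)⁻¹ := by rw [h1]
    _ = io1 T b := by group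

lemma rigid_YY (hr : Rigid c) (h : YY c hc →* T) (t : T) : h (iY2 c hc t) = h (iY1 c hc t) := by
  have := hr (h.comp (iY2 c hc)) (h.comp (iY1 c hc)) (by
    intro b hb
    change h (iY2 c hc b) = h (iY1 c hc b)
    rw [iY_agree hb]) t
  exact this

theorem no_YX (hr : Rigid c) {K : Type} [Finite K] [Nonempty K] [Finite T] [Nontrivial T]
    (f : (K → YY c hc) →* (K → T × T)) : ¬ Surjective f := by
  classical
  intro hf
  let ρ : (K → T) →* (K → YY c hc) :=
    { toFun := fun t k => iY1 c hc (t k)
      map_one' := by funext k; simp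
      map_mul' := fun a b => by funext k; simp }
  have h1 : ∀ k t, f (Pi.mulSingle k (iY2 c hc t)) = f (Pi.mulSingle k (iY1 c hc t)) := by
    intro k t
    funext k'
    let e := f.comp (MonoidHom.mulSingle (fun _ => YY c hc) k)
    have h2 := rigid_YY hr (((MonoidHom.fst T T).comp (Pi.evalMonoidHom (fun _ => T × T) k')).comp e) t
    have h3 := rigid_YY hr (((MonoidHom.snd T T).comp (Pi.evalMonoidHom (fun _ => T × T) k')).comp e) t
    exact Prod.ext h2 h3
  have h2 : (f.comp ρ).range.comap f = ⊤ := by
    apply pi_top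
    intro k a
    have h3 : ((f.comp ρ).range.comap f).comap (MonoidHom.mulSingle (fun _ => YY c hc) k) = ⊤ := by
      apply YY_top
      · intro t
        refine ⟨Pi.mulSingle k t, ?_⟩
        change f (fun k' => iY1 c hc ((Pi.mulSingle k t : K → T) k')) = f (Pi.mulSingle k (iY1 c hc t))
        congr 1
        funext k'
        by_cases h : k' = k
        · subst h; simp
        · simp [h]
      · intro t
        refine ⟨Pi.mulSingle k t, ?_⟩
        change f (fun k' => iY1 c hc ((Pi.mulSingle k t : K → T) k')) = f (Pi.mulSingle k (iY2 c hc t))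
        rw [h1]
        congr 1
        funext k'
        by_cases h : k' = k
        · subst h; simp
        · simp [h]
    have h4 : a ∈ ((f.comp ρ).range.comap f).comap (MonoidHom.mulSingle (fun _ => YY c hc) k) := by
      rw [h3]; trivial
    exact h4
  have h3 : Surjective (f.comp ρ) := by
    intro x
    obtain ⟨y, rfl⟩ := hf x
    have : y ∈ (f.comp ρ).range.comap f := by rw [h2]; trivial
    exact this
  have h4 := Nat.card_le_card_of_surjective _ h3
  rw [Nat.card_fun, Nat.card_fun, Nat.card_prod, mul_pow] at h4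
  have h5 : 1 < Nat.card T := Finite.one_lt_card
  have h6 : 1 < Nat.card T ^ Nat.card K := Nat.one_lt_pow (Nat.card_pos.ne') h5
  nlinarith

theorem no_XY (hr : Rigid c) (hC : CY c hc = ⊤) {K : Type} [Finite K] [Nonempty K] [Finite T]
    [Nontrivial T] (f : (K → T × T) →* (K → YY c hc)) : ¬ Surjective f := by
  classical
  intro hf
  have hfin : Finite (K → YY c hc) := Finite.of_surjective f hf
  obtain ⟨k0⟩ := (inferInstance : Nonempty K)
  have hfinY : Finite (YY c hc) :=
    Finite.of_surjective (fun g : K → YY c hc => g k0) (fun y => ⟨fun _ => y, rfl⟩)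
  have := Fintype.ofFinite (YY c hc)
  have := Fintype.ofFinite T
  -- the algebra map from the group ring of `Y`
  let L : MonoidAlgebra ℤ (YY c hc) →ₐ[ℤ] MonoidAlgebra ℤ (T × T) :=
    MonoidAlgebra.lift ℤ _ _ ((Units.coeHom _).comp (YY c hc).subtype)
  have hL : Surjective L := by
    have h1 : L.toRingHom.range = ⊤ := by
      rw [eq_top_iff, ← hC]
      unfold CY
      rw [Subring.closure_le]
      rintro _ ⟨y, rfl⟩
      refine ⟨MonoidAlgebra.of ℤ _ y, ?_⟩
      exact MonoidAlgebra.lift_of _ y
    intro x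
    have : x ∈ L.toRingHom.range := by rw [h1]; trivial
    exact this
  have hrank : Fintype.card (T × T) ≤ Fintype.card (YY c hc) := by
    let e1 := MonoidAlgebra.coeffLinearEquiv (S := ℤ) (M := YY c hc) ℤ
    let e2 := MonoidAlgebra.coeffLinearEquiv (S := ℤ) (M := T × T) ℤ
    let L' : ((YY c hc) →₀ ℤ) →ₗ[ℤ] ((T × T) →₀ ℤ) :=
      e2.toLinearMap.comp (L.toLinearMap.comp e1.symm.toLinearMap)
    have hL' : Surjective L' := e2.surjective.comp (hL.comp e1.symm.surjective)
    have h2 := LinearMap.finrank_le_finrank_of_surjective hL'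
    rwa [Module.finrank_finsupp_self, Module.finrank_finsupp_self] at h2
  have hcard : Nat.card (K → T × T) ≤ Nat.card (K → YY c hc) := by
    rw [Nat.card_fun, Nat.card_fun]
    apply Nat.pow_le_pow_left
    rw [Nat.card_eq_fintype_card, Nat.card_eq_fintype_card]
    exact hrank
  have hbij : Bijective f := by
    have h1 := Nat.card_le_card_of_surjective _ hf
    exact (Nat.bijective_iff_surjective_and_card f).2 ⟨hf, le_antisymm hcard h1⟩
  let e := MulEquiv.ofBijective f hbij
  exact no_YX hr (e.symm : (K → YY c hc) →* (K → T × T)) e.symm.surjective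

end

end Pool.Agent.Helper732.HopfZG
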