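import Pool.Agent.Helper732.HopfZG.Levels3

set_option autoImplicit false

namespace Pool.Agent.Helper732.HopfZG

open Function

/-- The data used at each level of the tower. -/
structure Level (T : Type) [Group T] where
  fin : Finite T
  simple : IsSimpleGroup T
  nc : ∃ a b : T, a * b ≠ b * a
  c : T
  hc : c ^ 5 = 1
  rigid : Rigid c
  gen : CY c hc = ⊤
  x : T
  hx : x ^ 3 = 1
  hx1 : x ≠ 1

lemma Pf_of_simple {T : Type} [Group T] [IsSimpleGroup T] (hnc : ∃ a b : T, a * b ≠ b * a) :
    Pf T := by
  intro B _ f hf x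
  rcases (inferInstance : f.ker.Normal).eq_bot_or_eq_top with h | h
  · exfalso
    have hinj : Injective f := (MonoidHom.ker_eq_bot_iff f).1 h
    obtain ⟨a, b, hab⟩ := hnc
    apply hab
    apply hinj
    rw [map_mul, map_mul]
    exact hf a b
  · have : x ∈ f.ker := by rw [h]; trivial
    exact this

lemma noHom_of_card {T K : Type} [Group T] [Group K] [IsSimpleGroup T] [Finite K]
    (h : Nat.card K < Nat.card T) : NoHom T K := by
  intro f x
  rcases (inferInstance : f.ker.Normal).eq_bot_or_eq_top with h1 | h1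
  · exfalso
    have hinj : Injective f := (MonoidHom.ker_eq_bot_iff f).1 h1
    have := Nat.card_le_card_of_injective _ hinj
    omega
  · have : x ∈ f.ker := by rw [h1]; trivial
    exact this

lemma noHom_YY {T H : Type} [Group T] [Group H] {c : T} {hc : c ^ 5 = 1} (h : NoHom T H) :
    NoHom (YY c hc) H := by
  intro f x
  have : f = 1 := by
    apply YY_ext
    · intro t; exact h (f.comp (iY1 c hc)) t
    · intro t; exact h (f.comp (iY2 c hc)) t
  rw [this]; rfl

lemma Pf_YY {T : Type} [Group T] {c : T} {hc : c ^ 5 = 1} (h : Pf T) : Pf (YY c hc) := by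
  intro B _ f hf x
  have : f = 1 := by
    apply YY_ext
    · intro t; exact h B (f.comp (iY1 c hc)) (fun _ _ => hf _ _) t
    · intro t; exact h B (f.comp (iY2 c hc)) (fun _ _ => hf _ _) t
  rw [this]; rfl

lemma noHom_prod_target {T A B : Type} [Group T] [Group A] [Group B] (h : NoHom T A)
    (h' : NoHom T B) : NoHom T (A × B) := by
  intro f x
  exact Prod.ext (h ((MonoidHom.fst A B).comp f) x) (h' ((MonoidHom.snd A B).comp f) x)

lemma RO_YY {T : Type} [Group T] {c : T} {hc : c ^ 5 = 1} (h : CY c hc = ⊤) :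
    RO (YY c hc) (T × T) :=
  ⟨(Units.coeHom _).comp (YY c hc).subtype, h⟩

theorem levels_main (T : ℕ → Type) [∀ n, Group (T n)] (L : ∀ n, Level (T n))
    (K : Type) [Group K] [Finite K] [IsSimpleGroup K]
    (hKc : ∃ a b : K, a * b ≠ b * a)
    (hcardK : ∀ n, Nat.card K < Nat.card (T n))
    (hcard : ∀ m n, m < n → 2 ^ (Nat.card (T m × T m)) < Nat.card (T n)) :
    ∃ (G : Type) (_ : Group G), (∀ f : G →* G, Surjective f → Injective f) ∧
      ∃ Φ : MonoidAlgebra ℤ G →+* MonoidAlgebra ℤ G, Surjective Φ ∧ ¬ Injective Φ := by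
  have hfin : ∀ n, Finite (T n) := fun n => (L n).fin
  have hsimple : ∀ n, IsSimpleGroup (T n) := fun n => (L n).simple
  let X : ℕ → Type := fun n => T n × T n
  let Y : ℕ → Type := fun n => YY (L n).c (L n).hc
  have hTY : ∀ m n, m < n → NoHom (T n) (Y m) := by
    intro m n hmn f x
    apply Subtype.ext
    exact no_hom_units (L n).hx (L n).hx1 (hcard m n hmn) ((YY (L m).c (L m).hc).subtype.comp f) x
  have hTT : ∀ m n, m < n → NoHom (T n) (T m) := by
    intro m n hmn
    apply noHom_of_card
    have h1 := hcard m n hmn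
    rw [Nat.card_prod] at h1
    have h2 : Nat.card (T m) ≤ Nat.card (T m) * Nat.card (T m) := Nat.le_mul_self _
    have h3 : Nat.card (T m) * Nat.card (T m) < 2 ^ (Nat.card (T m) * Nat.card (T m)) :=
      Nat.lt_two_pow_self
    omega
  apply abstract_main (X := X) (Y := Y) K hKc
  · intro n f hf
    have : Finite (K → X n) := inferInstanceAs (Finite (K → T n × T n))
    exact Finite.injective_iff_surjective.2 hf
  · intro n
    exact YY_hopf K
  · intro n f
    have : Nonempty K := ⟨1⟩
    have : Nontrivial (T n) := (hsimple n).toNontrivial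
    exact no_YX (L n).rigid f
  · intro n f
    have : Nonempty K := ⟨1⟩
    have : Nontrivial (T n) := (hsimple n).toNontrivial
    exact no_XY (L n).rigid (L n).gen f
  · intro m n hmn
    refine ⟨⟨noHom_YY (hTY m n hmn), noHom_prod (hTY m n hmn) (hTY m n hmn)⟩,
      noHom_YY (noHom_prod_target (hTT m n hmn) (hTT m n hmn)),
      noHom_prod (noHom_prod_target (hTT m n hmn) (hTT m n hmn))
        (noHom_prod_target (hTT m n hmn) (hTT m n hmn))⟩
  · intro n
    have h1 : NoHom (T n) K := noHom_of_card (hcardK n)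
    exact ⟨noHom_YY h1, noHom_prod h1 h1⟩
  · intro n
    have h1 : Pf (T n) := Pf_of_simple (L n).nc
    exact ⟨Pf_YY h1, Pf.prod h1 h1⟩
  · exact Pf_of_simple hKc
  · intro n
    exact RO_YY (L n).gen

end Pool.Agent.Helper732.HopfZG
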