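import Mathlib

set_option autoImplicit false

namespace Pool.Agent.Helper732.HopfZG

open scoped Classical in
/-- `RO A B`: some monoid homomorphism `A → ℤ[B]` has image generating the ring `ℤ[B]`. -/
def RO (A B : Type) [Group A] [Group B] : Prop :=
  ∃ ψ : A →* MonoidAlgebra ℤ B, Subring.closure (Set.range ψ) = ⊤

lemma subring_top_of_gr {B : Type} [Group B] (S : Subring (MonoidAlgebra ℤ B))
    (h : ∀ b, MonoidAlgebra.of ℤ B b ∈ S) : S = ⊤ := by
  rw [eq_top_iff]
  intro x _
  induction x using MonoidAlgebra.induction_on with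
  | of m => exact h m
  | add x y hx hy => exact S.add_mem (hx trivial) (hy trivial)
  | smul r x hx => exact S.zsmul_mem (hx trivial) r

/-- commuting group elements give commuting ring elements -/
lemma commute_map {A B C : Type} [Group A] [Group B] [Group C] (f : A →* C) (g : B →* C)
    (h : ∀ a b, Commute (f a) (g b)) (x : MonoidAlgebra ℤ A) (y : MonoidAlgebra ℤ B) :
    Commute (MonoidAlgebra.mapDomainRingHom ℤ f x) (MonoidAlgebra.mapDomainRingHom ℤ g y) := by
  induction x using MonoidAlgebra.induction_on with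
  | of a =>
    induction y using MonoidAlgebra.induction_on with
    | of b =>
      have h1 : MonoidAlgebra.mapDomainRingHom ℤ f (MonoidAlgebra.of ℤ A a)
          = MonoidAlgebra.of ℤ C (f a) := by simp [MonoidAlgebra.of_apply]
      have h2 : MonoidAlgebra.mapDomainRingHom ℤ g (MonoidAlgebra.of ℤ B b)
          = MonoidAlgebra.of ℤ C (g b) := by simp [MonoidAlgebra.of_apply]
      rw [h1, h2]
      exact (h a b).map (MonoidAlgebra.of ℤ C)
    | add x y hx hy => rw [map_add]; exact hx.add_right hy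
    | smul r x hx => rw [map_zsmul]; exact hx.smul_right r
  | add x y hx hy => rw [map_add]; exact hx.add_left hy
  | smul r x hx => rw [map_zsmul]; exact hx.smul_left r

lemma map_of {A C : Type} [Group A] [Group C] (f : A →* C) (a : A) :
    MonoidAlgebra.mapDomainRingHom ℤ f (MonoidAlgebra.of ℤ A a)
          = MonoidAlgebra.of ℤ C (f a) := by simp [MonoidAlgebra.of_apply]

lemma commute_of_map {A C : Type} [Group A] [Group C] (g : A →* C) (c : C)
    (h : ∀ a, Commute c (g a)) (y : MonoidAlgebra ℤ A) :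
    Commute (MonoidAlgebra.of ℤ C c) (MonoidAlgebra.mapDomainRingHom ℤ g y) := by
  induction y using MonoidAlgebra.induction_on with
  | of b =>
    rw [map_of]
    exact (h b).map (MonoidAlgebra.of ℤ C)
  | add x y hx hy => rw [map_add]; exact hx.add_right hy
  | smul r x hx => rw [map_zsmul]; exact hx.smul_right r

lemma RO.of_surj {A A' B : Type} [Group A] [Group A'] [Group B] (h : RO A B) (π : A' →* A)
    (hπ : Function.Surjective π) : RO A' B := by
  obtain ⟨ψ, hψ⟩ := h
  refine ⟨ψ.comp π, ?_⟩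
  rw [MonoidHom.coe_comp, hπ.range_comp]
  exact hψ

/-- if `ψ : A → ℤ[B]` generates, `I : ℤ[B] → R'` and `S` contains all `I (ψ a)` then `S` contains
`I x` for all `x`. -/
lemma mem_of_gen {A B : Type} [Group A] [Group B] {ψ : A →* MonoidAlgebra ℤ B}
    (hψ : Subring.closure (Set.range ψ) = ⊤) {R : Type} [Ring R] (I : MonoidAlgebra ℤ B →+* R)
    (S : Subring R) (h : ∀ a, I (ψ a) ∈ S) (x : MonoidAlgebra ℤ B) : I x ∈ S := by
  have h1 : Subring.closure (Set.range ψ) ≤ S.comap I := by
    rw [Subring.closure_le]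
    rintro _ ⟨a, rfl⟩
    exact h a
  rw [hψ] at h1
  exact h1 trivial

theorem RO.prod {A B B' : Type} [Group A] [Group B] [Group B'] (h : RO B B') :
    RO (A × B) (A × B') := by
  obtain ⟨ψ, hψ⟩ := h
  let I := MonoidAlgebra.mapDomainRingHom ℤ (MonoidHom.inr A B')
  have hc : ∀ (a : A) (x : MonoidAlgebra ℤ B'), Commute (MonoidAlgebra.of ℤ (A × B') (a, 1)) (I x) := by
    intro a x
    apply commute_of_map
    intro b
    change _ * _ = _ * _
    simp
  let Ψ : A × B →* MonoidAlgebra ℤ (A × B') :=
    MonoidHom.noncommCoprod ((MonoidAlgebra.of ℤ (A × B')).comp (MonoidHom.inl A B'))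
      ((I : MonoidAlgebra ℤ B' →* _).comp ψ) (by
        intro a b
        exact hc a (ψ b))
  refine ⟨Ψ, ?_⟩
  apply subring_top_of_gr
  rintro ⟨a, b⟩
  have h1 : MonoidAlgebra.of ℤ (A × B') (a, 1) ∈ Subring.closure (Set.range Ψ) := by
    apply Subring.subset_closure
    refine ⟨(a, 1), ?_⟩
    change (MonoidAlgebra.of ℤ (A × B')) (a, 1) * I (ψ 1) = _
    rw [map_one, map_one, mul_one]
  have h2 : I (MonoidAlgebra.of ℤ B' b) ∈ Subring.closure (Set.range Ψ) := by
    apply mem_of_gen hψ
    intro b'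
    apply Subring.subset_closure
    refine ⟨(1, b'), ?_⟩
    change (MonoidAlgebra.of ℤ (A × B')) (1, 1) * I (ψ b') = _
    rw [show ((1, 1) : A × B') = 1 from rfl, map_one, one_mul]
  have h3 : MonoidAlgebra.of ℤ (A × B') (a, b)
      = MonoidAlgebra.of ℤ (A × B') (a, 1) * I (MonoidAlgebra.of ℤ B' b) := by
    rw [map_of, ← map_mul]; simp
  rw [h3]
  exact Subring.mul_mem _ h1 h2

end Pool.Agent.Helper732.HopfZG
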