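import Pool.Agent.Helper732.HopfZG.Ident

set_option autoImplicit false

namespace Pool.Agent.Helper732.HopfZG

/-- explicit permutation from tables -/
def pm (f g : Fin 6 → Fin 6) (h : ∀ x, g (f x) = x ∧ f (g x) = x) : Equiv.Perm (Fin 6) :=
  ⟨f, g, fun x => (h x).1, fun x => (h x).2⟩

namespace Six

def c02134 : alternatingGroup (Fin 6) := ⟨pm ![2,3,1,4,0,5] ![4,2,0,1,3,5] (by decide), by rw [Equiv.Perm.mem_alternatingGroup]; decide⟩
def c01432 : alternatingGroup (Fin 6) := ⟨pm ![1,4,0,2,3,5] ![2,0,3,4,1,5] (by decide), by rw [Equiv.Perm.mem_alternatingGroup]; decide⟩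
def c02413 : alternatingGroup (Fin 6) := ⟨pm ![2,3,4,0,1,5] ![3,4,0,1,2,5] (by decide), by rw [Equiv.Perm.mem_alternatingGroup]; decide⟩
def c124 : alternatingGroup (Fin 6) := ⟨pm ![0,2,4,3,1,5] ![0,4,1,3,2,5] (by decide), by rw [Equiv.Perm.mem_alternatingGroup]; decide⟩
def c01324 : alternatingGroup (Fin 6) := ⟨pm ![1,3,4,2,0,5] ![4,0,3,1,2,5] (by decide), by rw [Equiv.Perm.mem_alternatingGroup]; decide⟩
def c04123 : alternatingGroup (Fin 6) := ⟨pm ![4,2,3,0,1,5] ![3,4,1,2,0,5] (by decide), by rw [Equiv.Perm.mem_alternatingGroup]; decide⟩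
def c01243 : alternatingGroup (Fin 6) := ⟨pm ![1,2,4,0,3,5] ![3,0,1,4,2,5] (by decide), by rw [Equiv.Perm.mem_alternatingGroup]; decide⟩
def c134 : alternatingGroup (Fin 6) := ⟨pm ![0,3,2,4,1,5] ![0,4,2,1,3,5] (by decide), by rw [Equiv.Perm.mem_alternatingGroup]; decide⟩
def c01234 : alternatingGroup (Fin 6) := ⟨pm ![1,2,3,4,0,5] ![4,0,1,2,3,5] (by decide), by rw [Equiv.Perm.mem_alternatingGroup]; decide⟩
def c01423 : alternatingGroup (Fin 6) := ⟨pm ![1,4,3,0,2,5] ![3,0,4,2,1,5] (by decide), by rw [Equiv.Perm.mem_alternatingGroup]; decide⟩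
def c04132 : alternatingGroup (Fin 6) := ⟨pm ![4,3,0,2,1,5] ![2,4,3,1,0,5] (by decide), by rw [Equiv.Perm.mem_alternatingGroup]; decide⟩
def c03124 : alternatingGroup (Fin 6) := ⟨pm ![3,2,4,1,0,5] ![4,3,1,0,2,5] (by decide), by rw [Equiv.Perm.mem_alternatingGroup]; decide⟩
def c03412 : alternatingGroup (Fin 6) := ⟨pm ![3,2,0,4,1,5] ![2,4,1,0,3,5] (by decide), by rw [Equiv.Perm.mem_alternatingGroup]; decide⟩
def c01342 : alternatingGroup (Fin 6) := ⟨pm ![1,3,0,4,2,5] ![2,0,4,1,3,5] (by decide), by rw [Equiv.Perm.mem_alternatingGroup]; decide⟩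
def c023 : alternatingGroup (Fin 6) := ⟨pm ![2,1,3,0,4,5] ![3,1,0,2,4,5] (by decide), by rw [Equiv.Perm.mem_alternatingGroup]; decide⟩
def c02143 : alternatingGroup (Fin 6) := ⟨pm ![2,4,1,0,3,5] ![3,2,0,4,1,5] (by decide), by rw [Equiv.Perm.mem_alternatingGroup]; decide⟩
def c034 : alternatingGroup (Fin 6) := ⟨pm ![3,1,2,4,0,5] ![4,1,2,0,3,5] (by decide), by rw [Equiv.Perm.mem_alternatingGroup]; decide⟩
def c024 : alternatingGroup (Fin 6) := ⟨pm ![2,1,4,3,0,5] ![4,1,0,3,2,5] (by decide), by rw [Equiv.Perm.mem_alternatingGroup]; decide⟩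
def c02431 : alternatingGroup (Fin 6) := ⟨pm ![2,0,4,1,3,5] ![1,3,0,4,2,5] (by decide), by rw [Equiv.Perm.mem_alternatingGroup]; decide⟩
def c12354 : alternatingGroup (Fin 6) := ⟨pm ![0,2,3,5,1,4] ![0,4,1,2,5,3] (by decide), by rw [Equiv.Perm.mem_alternatingGroup]; decide⟩
def c12543 : alternatingGroup (Fin 6) := ⟨pm ![0,2,5,1,3,4] ![0,3,1,4,5,2] (by decide), by rw [Equiv.Perm.mem_alternatingGroup]; decide⟩
def c234 : alternatingGroup (Fin 6) := ⟨pm ![0,1,3,4,2,5] ![0,1,4,2,3,5] (by decide), by rw [Equiv.Perm.mem_alternatingGroup]; decide⟩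
def c15342 : alternatingGroup (Fin 6) := ⟨pm ![0,5,1,4,2,3] ![0,2,4,5,3,1] (by decide), by rw [Equiv.Perm.mem_alternatingGroup]; decide⟩
def c04c23 : alternatingGroup (Fin 6) := ⟨pm ![4,1,3,2,0,5] ![4,1,3,2,0,5] (by decide), by rw [Equiv.Perm.mem_alternatingGroup]; decide⟩
def c02c34 : alternatingGroup (Fin 6) := ⟨pm ![2,1,0,4,3,5] ![2,1,0,4,3,5] (by decide), by rw [Equiv.Perm.mem_alternatingGroup]; decide⟩
def c042 : alternatingGroup (Fin 6) := ⟨pm ![4,1,0,3,2,5] ![2,1,4,3,0,5] (by decide), by rw [Equiv.Perm.mem_alternatingGroup]; decide⟩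
def c02154 : alternatingGroup (Fin 6) := ⟨pm ![2,5,1,3,0,4] ![4,2,0,3,5,1] (by decide), by rw [Equiv.Perm.mem_alternatingGroup]; decide⟩
def c12345 : alternatingGroup (Fin 6) := ⟨pm ![0,2,3,4,5,1] ![0,5,1,2,3,4] (by decide), by rw [Equiv.Perm.mem_alternatingGroup]; decide⟩
def c025c143 : alternatingGroup (Fin 6) := ⟨pm ![2,4,5,1,3,0] ![5,3,0,4,1,2] (by decide), by rw [Equiv.Perm.mem_alternatingGroup]; decide⟩
def c041c235 : alternatingGroup (Fin 6) := ⟨pm ![4,0,3,5,1,2] ![1,4,5,2,0,3] (by decide), by rw [Equiv.Perm.mem_alternatingGroup]; decide⟩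
def c043 : alternatingGroup (Fin 6) := ⟨pm ![4,1,2,0,3,5] ![3,1,2,4,0,5] (by decide), by rw [Equiv.Perm.mem_alternatingGroup]; decide⟩
def c02315 : alternatingGroup (Fin 6) := ⟨pm ![2,5,3,1,4,0] ![5,3,0,2,4,1] (by decide), by rw [Equiv.Perm.mem_alternatingGroup]; decide⟩
def c04315 : alternatingGroup (Fin 6) := ⟨pm ![4,5,2,1,3,0] ![5,3,2,4,0,1] (by decide), by rw [Equiv.Perm.mem_alternatingGroup]; decide⟩
def c012c345 : alternatingGroup (Fin 6) := ⟨pm ![1,2,0,4,5,3] ![2,0,1,5,3,4] (by decide), by rw [Equiv.Perm.mem_alternatingGroup]; decide⟩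


theorem even_c {R : Type*} [Ring R] {e : alternatingGroup (Fin 6) →* R} {E : Subring R}
    (h : EvenHyp e E) : sy e c01234 ∈ E := by
  have k0 := h.K (a := c02134) (b := c01432) (by decide) (by decide) (by decide) (by decide)
  rw [show c02134⁻¹ * c01432 = c02413 from by decide, show c01432 * c02134 = c124 from by decide, show c02134 ^ 2 * c01432 * c02134 ^ 3 = (c02413)⁻¹ from by decide, sy_inv, show c02134 ^ 4 * c01432 * c02134 = (c01324)⁻¹ from by decide, sy_inv, show c02134 * c01432 * c02134 ^ 4 = c04123 from by decide, show c02134 ^ 3 * c01432 * c02134 ^ 2 = c01243 from by decide] at k0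
  have k1 := h.K (a := c01432) (b := c01324) (by decide) (by decide) (by decide) (by decide)
  rw [show c01432⁻¹ * c01324 = (c124)⁻¹ from by decide, sy_inv, show c01324 * c01432 = (c01243)⁻¹ from by decide, sy_inv, show c01432 ^ 2 * c01324 * c01432 ^ 3 = c01243 from by decide, show c01432 ^ 4 * c01324 * c01432 = (c02134)⁻¹ from by decide, sy_inv, show c01432 * c01324 * c01432 ^ 4 = (c02413)⁻¹ from by decide, sy_inv, show c01432 ^ 3 * c01324 * c01432 ^ 2 = (c04123)⁻¹ from by decide, sy_inv] at k1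
  have k2 := h.K (a := c01243) (b := c01324) (by decide) (by decide) (by decide) (by decide)
  rw [show c01243⁻¹ * c01324 = (c134)⁻¹ from by decide, sy_inv, show c01324 * c01243 = (c02413)⁻¹ from by decide, sy_inv, show c01243 ^ 2 * c01324 * c01243 ^ 3 = c02413 from by decide, show c01243 ^ 4 * c01324 * c01243 = c04123 from by decide, show c01243 * c01324 * c01243 ^ 4 = (c02134)⁻¹ from by decide, sy_inv, show c01243 ^ 3 * c01324 * c01243 ^ 2 = c01432 from by decide] at k2
  have k3 := h.K (a := c01234) (b := c01423) (by decide) (by decide) (by decide) (by decide)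
  rw [show c01234⁻¹ * c01423 = c134 from by decide, show c01423 * c01234 = c04132 from by decide, show c01234 ^ 2 * c01423 * c01234 ^ 3 = (c04132)⁻¹ from by decide, sy_inv, show c01234 ^ 4 * c01423 * c01234 = c03124 from by decide, show c01234 * c01423 * c01234 ^ 4 = c03412 from by decide, show c01234 ^ 3 * c01423 * c01234 ^ 2 = c01342 from by decide] at k3
  have d0 := h.dbl (a := c01234) (by decide) (by decide)
  rw [show c01234 ^ 2 = c02413 from by decide] at d0
  have d1 := h.dbl (a := c01324) (by decide) (by decide)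
  rw [show c01324 ^ 2 = c03412 from by decide] at d1
  have d2 := h.dbl (a := c01423) (by decide) (by decide)
  rw [show c01423 ^ 2 = (c02134)⁻¹ from by decide, sy_inv] at d2
  have d3 := h.dbl (a := c01432) (by decide) (by decide)
  rw [show c01432 ^ 2 = (c03124)⁻¹ from by decide, sy_inv] at d3
  have d4 := h.dbl (a := c01342) (by decide) (by decide)
  rw [show c01342 ^ 2 = (c04123)⁻¹ from by decide, sy_inv] at d4
  have t0 := h.three (a := c01234) (by decide) (by decide)
  have hh := E.add_mem (E.sub_mem (E.sub_mem (E.add_mem (E.add_mem (E.sub_mem (E.add_mem (E.sub_mem k0 k1) k2) k3) d0) d1) d2) d3) d4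
  have := E.sub_mem t0 hh
  convert this using 1
  noncomm_ring

/-- the full hypothesis -/
def FullHyp {R : Type*} [Ring R] {Γ : Type*} [Group Γ] (e : Γ →* R) (E : Subring R) : Prop :=
  ∀ a : Γ, a ^ 5 = 1 → sy e a ∈ E

lemma FullHyp.T2 {R : Type*} [Ring R] {Γ : Type*} [Group Γ] {e : Γ →* R} {E : Subring R}
    (h : FullHyp e E) {a b : Γ} (ha : a ^ 5 = 1) (hb : b ^ 5 = 1) :
    sy e (a⁻¹ * b) + sy e (b * a) ∈ E := by
  rw [T2_id e a b ha]
  have conj5 : ∀ i j : ℕ, i + j = 5 → (a ^ i * b * a ^ j) ^ 5 = 1 := by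
    intro i j hij
    have hj : a ^ j = (a ^ i)⁻¹ := by
      rw [eq_comm, inv_eq_iff_mul_eq_one, ← pow_add, hij, ha]
    rw [hj, conj_pow, hb]; simp
  have g2 := conj5 2 3 rfl
  have g4 := conj5 4 1 rfl
  have g1 := conj5 1 4 rfl
  have g3 := conj5 3 2 rfl
  rw [pow_one] at g1 g4
  exact E.sub_mem (E.mul_mem (E.add_mem (E.add_mem (h _ hb) (h _ g2)) (h _ g4)) (h _ ha))
    (E.mul_mem (h _ ha) (E.add_mem (h _ g1) (h _ g3)))

theorem base_diff {R : Type*} [Ring R] {e : alternatingGroup (Fin 6) →* R} {E : Subring R}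
    (h : FullHyp e E) : e c012c345 - e c025c143 ∈ E := by
  have sc023 : sy e c023 ∈ E := by
    have k := h.T2 (a := c01234) (b := c03124) (by decide) (by decide)
    rw [show c01234⁻¹ * c03124 = c023 from by decide, show c03124 * c01234 = c02143 from by decide] at k
    have k2 := h c02143 (by decide)
    simpa using E.sub_mem k k2
  have sc034 : sy e c034 ∈ E := by
    have k := h.T2 (a := c01342) (b := c04132) (by decide) (by decide)
    rw [show c01342⁻¹ * c04132 = c034 from by decide, show c04132 * c01342 = c03124 from by decide] at k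
    have k2 := h c03124 (by decide)
    simpa using E.sub_mem k k2
  have sc024 : sy e c024 ∈ E := by
    have k := h.T2 (a := c01234) (b := c03412) (by decide) (by decide)
    rw [show c01234⁻¹ * c03412 = c024 from by decide, show c03412 * c01234 = c02431 from by decide] at k
    have k2 := h c02431 (by decide)
    simpa using E.sub_mem k k2
  have sc234 : sy e c234 ∈ E := by
    have k := h.T2 (a := c12354) (b := c12543) (by decide) (by decide)
    rw [show c12354⁻¹ * c12543 = c234 from by decide, show c12543 * c12354 = c15342 from by decide] at k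
    have k2 := h c15342 (by decide)
    simpa using E.sub_mem k k2
  have p0 : sy e c023 * sy e c034 = e c234 + e c04c23 + e c02c34 + e c042 := by
    rw [sy_mul, show c023 * c034 = c234 from by decide, show c023 * c034⁻¹ = c04c23 from by decide, show c023⁻¹ * c034 = c02c34 from by decide, show c023⁻¹ * c034⁻¹ = c042 from by decide]
  have p1 : sy e c02154 * sy e c12345 = e c023 + e c025c143 + e c041c235 + e c043 := by
    rw [sy_mul, show c02154 * c12345 = c023 from by decide, show c02154 * c12345⁻¹ = c025c143 from by decide, show c02154⁻¹ * c12345 = c041c235 from by decide, show c02154⁻¹ * c12345⁻¹ = c043 from by decide]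
  have p2 : sy e c024 * sy e c234 = e c023 + e c02c34 + e c04c23 + e c043 := by
    rw [sy_mul, show c024 * c234 = c023 from by decide, show c024 * c234⁻¹ = c02c34 from by decide, show c024⁻¹ * c234 = c04c23 from by decide, show c024⁻¹ * c234⁻¹ = c043 from by decide]
  have p3 : sy e c02315 * sy e c04315 = e c041c235 + e c234 + e c042 + e c012c345 := by
    rw [sy_mul, show c02315 * c04315 = c041c235 from by decide, show c02315 * c04315⁻¹ = c234 from by decide, show c02315⁻¹ * c04315 = c042 from by decide, show c02315⁻¹ * c04315⁻¹ = c012c345 from by decide]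
  have m0 := E.mul_mem sc023 sc034
  rw [p0] at m0
  have m1 := E.mul_mem (h c02154 (by decide)) (h c12345 (by decide))
  rw [p1] at m1
  have m2 := E.mul_mem sc024 sc234
  rw [p2] at m2
  have m3 := E.mul_mem (h c02315 (by decide)) (h c04315 (by decide))
  rw [p3] at m3
  have := E.sub_mem (E.sub_mem (E.add_mem m2 m3) m0) m1
  convert this using 1
  abel

end Six

end Pool.Agent.Helper732.HopfZG
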