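import Pool.Agent.Helper732.HopfZG.Six

set_option autoImplicit false

namespace Pool.Agent.Helper732.HopfZG

namespace Six

def c021c354 : alternatingGroup (Fin 6) := ⟨pm ![2,0,1,5,3,4] ![1,2,0,4,5,3] (by decide), by rw [Equiv.Perm.mem_alternatingGroup]; decide⟩
def c045c123 : alternatingGroup (Fin 6) := ⟨pm ![4,2,3,1,5,0] ![5,3,1,2,0,4] (by decide), by rw [Equiv.Perm.mem_alternatingGroup]; decide⟩
def c051c243 : alternatingGroup (Fin 6) := ⟨pm ![5,0,4,2,3,1] ![1,5,3,4,2,0] (by decide), by rw [Equiv.Perm.mem_alternatingGroup]; decide⟩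
def c053c124 : alternatingGroup (Fin 6) := ⟨pm ![5,2,4,0,1,3] ![3,4,1,5,2,0] (by decide), by rw [Equiv.Perm.mem_alternatingGroup]; decide⟩
def c034c152 : alternatingGroup (Fin 6) := ⟨pm ![3,5,1,4,0,2] ![4,2,5,0,3,1] (by decide), by rw [Equiv.Perm.mem_alternatingGroup]; decide⟩

variable {R : Type*} [Ring R] {e : alternatingGroup (Fin 6) →* R} {E : Subring R}

lemma FullHyp.conj (h : FullHyp e E) (σ : Equiv.Perm (Fin 6)) :
    FullHyp (e.comp (MulAut.conjNormal σ : MulAut (alternatingGroup (Fin 6))).toMonoidHom) E := by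
  intro a ha
  have h1 := h (MulAut.conjNormal σ a) (by rw [← map_pow, ha, map_one])
  simpa [sy] using h1

theorem diff_conj (h : FullHyp e E) (σ : Equiv.Perm (Fin 6)) {x y : alternatingGroup (Fin 6)}
    (hx : σ * c012c345.1 * σ⁻¹ = x.1) (hy : σ * c025c143.1 * σ⁻¹ = y.1) : e x - e y ∈ E := by
  have h1 := base_diff (FullHyp.conj h σ)
  have hx' : MulAut.conjNormal σ c012c345 = x := Subtype.ext hx
  have hy' : MulAut.conjNormal σ c025c143 = y := Subtype.ext hy
  simpa [hx', hy'] using h1

theorem elt_mem (h : FullHyp e E) : e c053c124 ∈ E := by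
  have h1 : e c012c345 - e c025c143 ∈ E := base_diff h
  have h2 : e c021c354 - e c045c123 ∈ E :=
    diff_conj h (pm ![1,0,2,5,4,3] ![1,0,2,5,4,3] (by decide)) (by decide) (by decide)
  have h3 : e c051c243 - e c034c152 ∈ E :=
    diff_conj h (pm ![1,0,5,4,3,2] ![1,0,5,4,3,2] (by decide)) (by decide) (by decide)
  have h4 := E.mul_mem h1 h2
  have e1 : e c012c345 * e c021c354 = 1 := by
    rw [← map_mul, show c012c345 * c021c354 = 1 from by decide, map_one]
  have e2 : e c012c345 * e c045c123 = e c051c243 := by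
    rw [← map_mul, show c012c345 * c045c123 = c051c243 from by decide]
  have e3 : e c025c143 * e c021c354 = e c053c124 := by
    rw [← map_mul, show c025c143 * c021c354 = c053c124 from by decide]
  have e4 : e c025c143 * e c045c123 = e c034c152 := by
    rw [← map_mul, show c025c143 * c045c123 = c034c152 from by decide]
  rw [mul_sub, sub_mul, sub_mul, e1, e2, e3, e4] at h4
  have := E.sub_mem (E.sub_mem (E.one_mem) h4) h3
  convert this using 1
  abel

theorem elt_ne : c053c124 ≠ 1 := by decide

end Six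

end Pool.Agent.Helper732.HopfZG
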