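import Pool.Agent.Helper732.HopfZG.GroupSide

set_option autoImplicit false

namespace Pool.Agent.Helper732.HopfZG

open Function

lemma noHom_pi {A B K : Type} [Group A] [Group B] [Finite K] (h : NoHom A B) :
    NoHom (K → A) B := by
  classical
  intro f x
  have : f = 1 := by
    apply MonoidHom.pi_ext
    intro i a
    exact h (f.comp (MonoidHom.mulSingle (fun _ => A) i)) a
  rw [this]; rfl

lemma noHom_pi' {A B K : Type} [Group A] [Group B] [Finite K] (h : NoHom A B) :
    NoHom (K → A) (K → B) := by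
  intro f x
  funext k
  exact noHom_pi h ((Pi.evalMonoidHom (fun _ => B) k).comp f) x

lemma noHom_prod {A A' B : Type} [Group A] [Group A'] [Group B] (h : NoHom A B) (h' : NoHom A' B) :
    NoHom (A × A') B := by
  intro f x
  have h1 : x = (x.1, 1) * (1, x.2) := by ext <;> simp
  rw [h1, map_mul]
  have h2 := h (f.comp (MonoidHom.inl A A')) x.1
  have h3 := h' (f.comp (MonoidHom.inr A A')) x.2
  change f (x.1, 1) = 1 at h2
  change f (1, x.2) = 1 at h3
  rw [h2, h3, one_mul]

lemma Pf.prod {A A' : Type} [Group A] [Group A'] (h : Pf A) (h' : Pf A') : Pf (A × A') := by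
  intro B _ f hf x
  have h1 : x = (x.1, 1) * (1, x.2) := by ext <;> simp
  rw [h1, map_mul]
  have h2 := h B (f.comp (MonoidHom.inl A A')) (fun _ _ => hf _ _) x.1
  have h3 := h' B (f.comp (MonoidHom.inr A A')) (fun _ _ => hf _ _) x.2
  change f (x.1, 1) = 1 at h2
  change f (1, x.2) = 1 at h3
  rw [h2, h3, one_mul]

lemma Pf.wreath {Q K : Type} [Group Q] [Group K] [Finite K] (h : Pf Q) (h' : Pf K) :
    Pf (Q ≀ᵣ K) := by
  classical
  intro B _ f hf x
  have h1 : f.comp (bs Q K) = 1 := by
    apply MonoidHom.pi_ext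
    intro i a
    change f (bs Q K (Pi.mulSingle i a)) = 1
    have := h B (f.comp ((bs Q K).comp (MonoidHom.mulSingle (fun _ => Q) i))) (fun _ _ => hf _ _) a
    exact this
  have h2 := h' B (f.comp RegularWreathProduct.inl) (fun _ _ => hf _ _) x.right
  have h3 : f (bs Q K x.left) = 1 := congrArg (fun g => g x.left) h1
  change f (RegularWreathProduct.inl x.right) = 1 at h2
  rw [eq_bs_inl x, map_mul, h3, h2, one_mul]

/-- peeling off one level -/
theorem peel {A B B' K : Type} [Group A] [Group B] [Group B'] [Group K] [Finite K]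
    (f : (K → A × B) →* (K → A × B')) (hf : Surjective f) (hBA : NoHom B A)
    (hA : ∀ g : (K → A) →* (K → A), Surjective g → Injective g) :
    ∃ g : (K → B) →* (K → B'), Surjective g ∧ (Injective g → Injective f) := by
  let i1 : (K → A) →* (K → A × B) :=
    { toFun := fun a k => (a k, 1)
      map_one' := rfl
      map_mul' := fun a b => by funext k; simp }
  let i2 : (K → B) →* (K → A × B) :=
    { toFun := fun a k => (1, a k)
      map_one' := rfl
      map_mul' := fun a b => by funext k; simp }
  let j1 : (K → A) →* (K → A × B') :=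
    { toFun := fun a k => (a k, 1)
      map_one' := rfl
      map_mul' := fun a b => by funext k; simp }
  let j2 : (K → B') →* (K → A × B') :=
    { toFun := fun a k => (1, a k)
      map_one' := rfl
      map_mul' := fun a b => by funext k; simp }
  let p1 : (K → A × B') →* (K → A) :=
    { toFun := fun a k => (a k).1
      map_one' := rfl
      map_mul' := fun a b => rfl }
  let p2 : (K → A × B') →* (K → B') :=
    { toFun := fun a k => (a k).2
      map_one' := rfl
      map_mul' := fun a b => rfl }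
  have hdec : ∀ x : K → A × B, x = i1 (fun k => (x k).1) * i2 (fun k => (x k).2) := by
    intro x; funext k
    change x k = ((x k).1, 1) * (1, (x k).2)
    ext <;> simp
  have hcross : ∀ b, p1 (f (i2 b)) = 1 :=
    fun b => noHom_pi' hBA ((p1.comp f).comp i2) b
  let α : (K → A) →* (K → A) := (p1.comp f).comp i1
  have hα0 : ∀ x, p1 (f x) = α (fun k => (x k).1) := by
    intro x
    conv_lhs => rw [hdec x]
    rw [map_mul, map_mul, hcross, mul_one]
    rfl
  have hα : Surjective α := by
    intro a
    obtain ⟨x, hx⟩ := hf (j1 a)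
    refine ⟨fun k => (x k).1, ?_⟩
    rw [← hα0, hx]
    rfl
  have hα' := (injective_iff_map_eq_one α).1 (hA α hα)
  have hx2 : ∀ x, p1 (f x) = 1 → x = i2 (fun k => (x k).2) := by
    intro x hx
    rw [hα0] at hx
    have h1 := hα' _ hx
    conv_lhs => rw [hdec x, h1, map_one, one_mul]
  let g : (K → B) →* (K → B') := (p2.comp f).comp i2
  refine ⟨g, ?_, ?_⟩
  · intro b
    obtain ⟨x, hx⟩ := hf (j2 b)
    refine ⟨fun k => (x k).2, ?_⟩
    change p2 (f (i2 fun k => (x k).2)) = b
    rw [← hx2 x (by rw [hx]; rfl), hx]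
    rfl
  · intro hg
    rw [injective_iff_map_eq_one]
    intro x hx
    have h1 := hx2 x (by rw [hx]; rfl)
    have h2 : g (fun k => (x k).2) = 1 := by
      change p2 (f (i2 fun k => (x k).2)) = 1
      rw [← h1, hx, map_one]
    have h3 := (injective_iff_map_eq_one g).1 hg _ h2
    rw [h1, h3, map_one]

section Tower

variable (X Y : ℕ → Type) [∀ n, Group (X n)] [∀ n, Group (Y n)]

/-- the tower groups -/
def D : ℕ → ℕ → Type
  | 0, m => X m
  | d + 1, m => Y m × D d (m + 1)

instance instD : ∀ d m, Group (D X Y d m)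
  | 0, m => inferInstanceAs (Group (X m))
  | d + 1, m => by
      have := instD d (m + 1)
      exact inferInstanceAs (Group (Y m × D X Y d (m + 1)))

variable {X Y}

lemma D_noHom {H : Type} [Group H] (n : ℕ) (h : ∀ m, n ≤ m → NoHom (Y m) H ∧ NoHom (X m) H) (d : ℕ) :
    ∀ m, n ≤ m → NoHom (D X Y d m) H := by
  induction d with
  | zero => intro m hm; exact (h m hm).2
  | succ d ih =>
    intro m hm
    exact noHom_prod (A := Y m) (A' := D X Y d (m + 1)) (h m hm).1 (ih (m + 1) (by omega))

lemma D_Pf (h : ∀ m, Pf (Y m) ∧ Pf (X m)) (d : ℕ) : ∀ m, Pf (D X Y d m) := by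
  induction d with
  | zero => intro m; exact (h m).2
  | succ d ih =>
    intro m
    exact Pf.prod (A := Y m) (A' := D X Y d (m + 1)) (h m).1 (ih (m + 1))

lemma D_RO (h : ∀ m, RO (Y m) (X m)) (d : ℕ) : ∀ m, RO (D X Y (d + 1) m) (D X Y d m) := by
  induction d with
  | zero =>
    intro m
    exact RO.of_surj (A := Y m) (A' := Y m × X (m + 1)) (B := X m) (h m) (MonoidHom.fst _ _)
      (fun y => ⟨(y, 1), rfl⟩)
  | succ d ih =>
    intro m
    exact RO.prod (A := Y m) (B := D X Y (d + 1) (m + 1)) (B' := D X Y d (m + 1)) (ih (m + 1))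

theorem claimC {K : Type} [Group K] [Finite K] 
    (hX : ∀ n, ∀ f : (K → X n) →* (K → X n), Surjective f → Injective f)
    (hY : ∀ n, ∀ f : (K → Y n) →* (K → Y n), Surjective f → Injective f)
    (hYX : ∀ n, ∀ f : (K → Y n) →* (K → X n), ¬ Surjective f)
    (hXY : ∀ n, ∀ f : (K → X n) →* (K → Y n), ¬ Surjective f)
    (hlow : ∀ m n, m < n → (NoHom (Y n) (Y m) ∧ NoHom (X n) (Y m)) ∧
      (NoHom (Y n) (X m) ∧ NoHom (X n) (X m))) (d : ℕ) :
    ∀ (d' m : ℕ) (f : (K → D X Y d m) →* (K → D X Y d' m)), Surjective f → d = d' ∧ Injective f := by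
  induction d with
  | zero =>
    intro d' m f hf
    rcases d' with _ | d'
    · exact ⟨rfl, hX m f hf⟩
    · exfalso
      let p1 : (K → Y m × D X Y d' (m + 1)) →* (K → Y m) :=
        { toFun := fun a k => (a k).1
          map_one' := rfl
          map_mul' := fun a b => rfl }
      have hp1 : Surjective p1 := fun a => ⟨fun k => (a k, 1), rfl⟩
      exact hXY m (MonoidHom.comp p1 f) (hp1.comp hf)
  | succ d ih =>
    intro d' m f hf
    rcases d' with _ | d'
    · exfalso
      let i1 : (K → Y m) →* (K → Y m × D X Y d (m + 1)) :=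
        { toFun := fun a k => (a k, 1)
          map_one' := rfl
          map_mul' := fun a b => by funext k; simp }
      let i2 : (K → D X Y d (m + 1)) →* (K → Y m × D X Y d (m + 1)) :=
        { toFun := fun a k => (1, a k)
          map_one' := rfl
          map_mul' := fun a b => by funext k; simp }
      let f' : (K → Y m × D X Y d (m + 1)) →* (K → X m) := f
      have hf' : Surjective f' := hf
      have hno : NoHom (D X Y d (m + 1)) (X m) :=
        D_noHom (m + 1) (fun n hn => (hlow m n (by omega)).2) d (m + 1) le_rfl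
      have hcross : ∀ b, f' (i2 b) = 1 := fun b => noHom_pi' hno (f'.comp i2) b
      apply hYX m (f'.comp i1)
      intro x
      obtain ⟨w, hw⟩ := hf' x
      refine ⟨fun k => (w k).1, ?_⟩
      have hdec : w = i1 (fun k => (w k).1) * i2 (fun k => (w k).2) := by
        funext k
        change w k = ((w k).1, 1) * (1, (w k).2)
        ext <;> simp
      rw [hdec, map_mul, hcross, mul_one] at hw
      exact hw
    · have hno : NoHom (D X Y d (m + 1)) (Y m) :=
        D_noHom (m + 1) (fun n hn => (hlow m n (by omega)).1) d (m + 1) le_rfl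
      obtain ⟨g, hg, hgi⟩ := peel (A := Y m) (B := D X Y d (m + 1)) (B' := D X Y d' (m + 1))
        f hf hno (hY m)
      obtain ⟨h1, h2⟩ := ih d' (m + 1) g hg
      exact ⟨by rw [h1], hgi h2⟩

theorem abstract_main (K : Type) [Group K] [Finite K] [IsSimpleGroup K]
    (hKc : ∃ a b : K, a * b ≠ b * a)
    (hX : ∀ n, ∀ f : (K → X n) →* (K → X n), Surjective f → Injective f)
    (hY : ∀ n, ∀ f : (K → Y n) →* (K → Y n), Surjective f → Injective f)
    (hYX : ∀ n, ∀ f : (K → Y n) →* (K → X n), ¬ Surjective f)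
    (hXY : ∀ n, ∀ f : (K → X n) →* (K → Y n), ¬ Surjective f)
    (hlow : ∀ m n, m < n → (NoHom (Y n) (Y m) ∧ NoHom (X n) (Y m)) ∧
      (NoHom (Y n) (X m) ∧ NoHom (X n) (X m)))
    (hK : ∀ n, NoHom (Y n) K ∧ NoHom (X n) K)
    (hPf : ∀ n, Pf (Y n) ∧ Pf (X n)) (hPfK : Pf K)
    (hRO : ∀ n, RO (Y n) (X n)) :
    ∃ (G : Type) (_ : Group G), (∀ f : G →* G, Surjective f → Injective f) ∧
      ∃ Φ : MonoidAlgebra ℤ G →+* MonoidAlgebra ℤ G, Surjective Φ ∧ ¬ Injective Φ := by
  classical
  have := Fintype.ofFinite K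
  let W : ℕ → Type := fun n => (D X Y n 0) ≀ᵣ K
  refine ⟨DS W, inferInstance, ?_, ?_⟩
  · intro f hf
    have hWPf : ∀ n, Pf (W n) := fun n => Pf.wreath (D_Pf hPf n 0) hPfK
    have key : ∀ i, Injective (fun x : W i => (f (inc i x)).1 i) ∧
        ∀ l, l ≠ i → ∀ x : W l, (f (inc l x)).1 i = 1 := by
      intro i
      let F : DS W →* W i := ((Pi.evalMonoidHom W i).comp (DS W).subtype).comp f
      have hF : Surjective F := by
        intro w
        obtain ⟨g, hg⟩ := hf (inc i w)
        refine ⟨g, ?_⟩
        change (f g).1 i = w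
        rw [hg, inc_same]
      obtain ⟨j, hj1, hj2⟩ := lemmaA (Q := D X Y i 0) (K := K) hWPf hKc F hF
      have hno : NoHom (K → D X Y j 0) K :=
        noHom_pi (D_noHom 0 (fun m _ => hK m) j 0 le_rfl)
      let Fj : (D X Y j 0 ≀ᵣ K) →* (D X Y i 0 ≀ᵣ K) := MonoidHom.comp F (inc j : W j →* DS W)
      have hFj : Surjective Fj := hj1
      obtain ⟨fb, hfb1, hfb2⟩ := lemmaB hno Fj hFj
      obtain ⟨hji, hinj⟩ := claimC hX hY hYX hXY hlow j i 0 fb hfb1
      subst hji
      exact ⟨hfb2 hinj, hj2⟩
    rw [injective_iff_map_eq_one]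
    intro g hg
    apply Subtype.ext
    funext i
    have h1 : ((Pi.evalMonoidHom W i).comp (DS W).subtype).comp f =
        (((Pi.evalMonoidHom W i).comp (DS W).subtype).comp f).comp
          ((inc i).comp ((Pi.evalMonoidHom W i).comp (DS W).subtype)) := by
      apply DS_ext
      intro l w
      by_cases h : l = i
      · subst h
        change (f (inc l w)).1 l = (f (inc l ((inc l w : DS W).1 l))).1 l
        rw [inc_same]
      · change (f (inc l w)).1 i = (f (inc i ((inc l w : DS W).1 i))).1 i
        rw [inc_ne (Ne.symm h), map_one, map_one, (key i).2 l h]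
        rfl
    have h2 : (f g).1 i = (f (inc i (g.1 i))).1 i := congrArg (fun F => F g) h1
    rw [hg] at h2
    have h3 : (f (inc i (g.1 i))).1 i = (f (inc i (1 : W i))).1 i := by
      rw [← h2, map_one, map_one]
    exact (key i).1 h3
  · apply exists_ring_endo
    · intro n
      exact RO.wreath (D_RO hRO n 0)
    · obtain ⟨k, hk⟩ := exists_ne (1 : K)
      refine ⟨RegularWreathProduct.inl k, ?_⟩
      intro h
      exact hk (congrArg RegularWreathProduct.right h)

end Tower

end Pool.Agent.Helper732.HopfZG
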